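import Mathlib

set_option autoImplicit false

/-!
# Sets without near progressions whose difference is a power of two: the upper bound

Multiscale counting: at each scale at most `R` of `M` consecutive cells at distance `2^j` meet the
set, and the next scale is the width of the cells.
-/

namespace Pool.Agent.Y869.NP

/-- among `M` consecutive cells at most `R` can be met -/
def HU (k M R : ℕ) : Prop :=
  0 < R ∧ R < M ∧ M ≤ 3 * R ∧ ∀ H : Finset ℕ, H ⊆ Finset.range M →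
    (∀ x i : ℕ, 2 ^ i < M → ¬ ∀ l : ℕ, l < k → x + l * 2 ^ i ∈ H) → H.card ≤ R

/-- no near progression with `k` blocks, difference `2^j` and width `w`, `w n < 4^j` -/
def Av (k n : ℕ) (A : Finset ℕ) : Prop :=
  ∀ j w : ℕ, w * n < (2 ^ j) ^ 2 → ¬ ∃ b : ℕ, ∀ i ∈ Finset.Icc 1 k,
    ∃ a ∈ A, b + i * 2 ^ j ≤ a ∧ a ≤ b + i * 2 ^ j + w

/-- number of elements in `[s, s+L)` -/
def cnt (A : Finset ℕ) (s L : ℕ) : ℕ := (A.filter (fun a => s ≤ a ∧ a < s + L)).card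

theorem cnt_le (A : Finset ℕ) (s L : ℕ) : cnt A s L ≤ L := by
  unfold cnt
  calc (A.filter (fun a => s ≤ a ∧ a < s + L)).card ≤ (Finset.Ico s (s + L)).card := by
        apply Finset.card_le_card
        intro a ha
        rw [Finset.mem_filter] at ha
        rw [Finset.mem_Ico]
        exact ha.2
    _ = L := by rw [Nat.card_Ico]; omega

theorem block {k M R n N j ℓ Q s₀ : ℕ} {A : Finset ℕ} (hU : HU k M R) (hA : Av k n A)
    (hn : n < 2 ^ N) (hN : N ≤ 2 * j) (hℓ : 0 < ℓ) (hℓw : ℓ ≤ 2 ^ (2 * j - N) + 1)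
    (hQ : 2 ^ j ≤ Q * ℓ) (hs : M * 2 ^ j ≤ s₀) (B : ℝ)
    (hB : ∀ s : ℕ, M * 2 ^ j ≤ s → (cnt A s ℓ : ℝ) ≤ B) :
    (cnt A s₀ (M * 2 ^ j) : ℝ) ≤ Q * (R * B) := by
  classical
  obtain ⟨hR0, hRM, -, hU⟩ := hU
  have hB0 : 0 ≤ B := le_trans (Nat.cast_nonneg _) (hB s₀ hs)
  obtain ⟨D, hD⟩ : ∃ D : ℕ, D = 2 ^ j := ⟨_, rfl⟩
  have hDpos : 0 < D := by rw [hD]; positivity
  let Cc : ℕ → ℕ → Finset ℕ := fun e h =>
    A.filter (fun a => s₀ + h * D + e * ℓ ≤ a ∧ a < s₀ + h * D + e * ℓ + ℓ)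
  let Hh : ℕ → Finset ℕ := fun e => (Finset.range M).filter (fun h => (Cc e h).Nonempty)
  have hHcard : ∀ e, (Hh e).card ≤ R := by
    intro e
    apply hU
    · exact Finset.filter_subset _ _
    · intro x i hi hall
      have hw : 2 ^ (2 * j - N) * n < (2 ^ (i + j)) ^ 2 := by
        calc 2 ^ (2 * j - N) * n < 2 ^ (2 * j - N) * 2 ^ N :=
              Nat.mul_lt_mul_of_pos_left hn (by positivity)
          _ = 2 ^ (2 * j) := by rw [← pow_add]; congr 1; omega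
          _ ≤ 2 ^ ((i + j) * 2) := Nat.pow_le_pow_right (by norm_num) (by omega)
          _ = (2 ^ (i + j)) ^ 2 := by rw [pow_mul]
      have hD2 : 2 ^ (i + j) ≤ s₀ := by
        calc 2 ^ (i + j) = 2 ^ i * 2 ^ j := by rw [pow_add]
          _ ≤ M * 2 ^ j := Nat.mul_le_mul_right _ hi.le
          _ ≤ s₀ := hs
      refine hA (i + j) (2 ^ (2 * j - N)) hw ⟨s₀ + x * D + e * ℓ - 2 ^ (i + j), fun i' hi' => ?_⟩
      rw [Finset.mem_Icc] at hi'
      obtain ⟨l, rfl⟩ : ∃ l : ℕ, i' = l + 1 := ⟨i' - 1, by omega⟩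
      have hl := hall l (by omega)
      rw [Finset.mem_filter] at hl
      obtain ⟨a, ha⟩ := hl.2
      rw [Finset.mem_filter] at ha
      obtain ⟨haA, h1, h2⟩ := ha
      have h3 : (x + l * 2 ^ i) * D = x * D + l * 2 ^ (i + j) := by
        rw [hD, pow_add]; ring
      have h4 : (l + 1) * 2 ^ (i + j) = l * 2 ^ (i + j) + 2 ^ (i + j) := by ring
      rw [h3] at h1 h2
      rw [h4]
      exact ⟨a, haA, by omega, by omega⟩
  have hsub : A.filter (fun a => s₀ ≤ a ∧ a < s₀ + M * 2 ^ j) ⊆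
      (Finset.range Q).biUnion (fun e => (Hh e).biUnion (fun h => Cc e h)) := by
    intro a ha
    rw [Finset.mem_filter] at ha
    obtain ⟨haA, h1, h2⟩ := ha
    rw [← hD] at h2 hQ
    obtain ⟨x, rfl⟩ := Nat.exists_eq_add_of_le h1
    have hx : x < M * D := by omega
    have hd1 := Nat.div_add_mod x D
    have hd2 := Nat.mod_lt x hDpos
    obtain ⟨h, hh⟩ : ∃ h : ℕ, h = x / D := ⟨_, rfl⟩
    obtain ⟨r, hr⟩ : ∃ r : ℕ, r = x % D := ⟨_, rfl⟩
    have hhM : h < M := by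
      rw [hh]
      exact Nat.div_lt_of_lt_mul (by rw [Nat.mul_comm]; exact hx)
    rw [← hh, ← hr] at hd1
    rw [← hr] at hd2
    have he1 := Nat.div_add_mod r ℓ
    have he2 := Nat.mod_lt r hℓ
    obtain ⟨e, he⟩ : ∃ e : ℕ, e = r / ℓ := ⟨_, rfl⟩
    have heQ : e < Q := by
      rw [he]
      exact Nat.div_lt_of_lt_mul (by rw [Nat.mul_comm]; omega)
    rw [← he] at he1
    have hc1 : D * h = h * D := Nat.mul_comm _ _
    have hc2 : ℓ * e = e * ℓ := Nat.mul_comm _ _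
    have hmem : s₀ + x ∈ Cc e h := by
      rw [Finset.mem_filter]
      refine ⟨haA, ?_, ?_⟩ <;> omega
    rw [Finset.mem_biUnion]
    refine ⟨e, Finset.mem_range.2 heQ, ?_⟩
    rw [Finset.mem_biUnion]
    refine ⟨h, ?_, hmem⟩
    rw [Finset.mem_filter]
    exact ⟨Finset.mem_range.2 hhM, ⟨_, hmem⟩⟩
  have hcell : ∀ e h, ((Cc e h).card : ℝ) ≤ B := by
    intro e h
    have := hB (s₀ + h * D + e * ℓ) (by omega)
    exact this
  unfold cnt
  calc ((A.filter (fun a => s₀ ≤ a ∧ a < s₀ + M * 2 ^ j)).card : ℝ)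
      ≤ (((Finset.range Q).biUnion (fun e => (Hh e).biUnion (fun h => Cc e h))).card : ℝ) := by
        exact_mod_cast Finset.card_le_card hsub
    _ ≤ ((∑ e ∈ Finset.range Q, ((Hh e).biUnion (fun h => Cc e h)).card : ℕ) : ℝ) := by
        exact_mod_cast Finset.card_biUnion_le
    _ = ∑ e ∈ Finset.range Q, (((Hh e).biUnion (fun h => Cc e h)).card : ℝ) := by push_cast; rfl
    _ ≤ ∑ e ∈ Finset.range Q, (R * B) := by
        apply Finset.sum_le_sum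
        intro e _
        calc (((Hh e).biUnion (fun h => Cc e h)).card : ℝ)
            ≤ ((∑ h ∈ Hh e, (Cc e h).card : ℕ) : ℝ) := by exact_mod_cast Finset.card_biUnion_le
          _ = ∑ h ∈ Hh e, ((Cc e h).card : ℝ) := by push_cast; rfl
          _ ≤ ∑ h ∈ Hh e, B := Finset.sum_le_sum (fun h _ => hcell e h)
          _ = (Hh e).card * B := by rw [Finset.sum_const, nsmul_eq_mul]
          _ ≤ R * B := by
              apply mul_le_mul_of_nonneg_right _ hB0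
              exact_mod_cast hHcard e
    _ = Q * (R * B) := by rw [Finset.sum_const, Finset.card_range, nsmul_eq_mul]

theorem recur {k M R n N μ : ℕ} {A : Finset ℕ} (hU : HU k M R) (hA : Av k n A)
    (hn : n < 2 ^ N) (hμ : M ≤ 2 ^ μ) : ∀ κ v j : ℕ, 1 ≤ v → j + v = N →
      2 ^ κ * (v + μ) ≤ N + μ → ∀ s : ℕ, M * 2 ^ j ≤ s →
      (cnt A s (M * 2 ^ j) : ℝ) * (1 - 1 / 2 ^ v) ≤ M * 2 ^ j * ((R : ℝ) / M) ^ κ := by
  obtain ⟨hR0, hRM, -, -⟩ := id hU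
  have hM0 : 0 < M := by omega
  have hMR : (0 : ℝ) < M := by exact_mod_cast hM0
  have hRR : (0 : ℝ) < R := by exact_mod_cast hR0
  intro κ
  induction κ with
  | zero =>
    intro v j hv hj _ s _
    have h1 : (cnt A s (M * 2 ^ j) : ℝ) ≤ M * 2 ^ j := by exact_mod_cast cnt_le A s (M * 2 ^ j)
    have h2 : (0 : ℝ) < 1 / 2 ^ v := by positivity
    have h3 : (0 : ℝ) ≤ cnt A s (M * 2 ^ j) := Nat.cast_nonneg _
    rw [pow_zero, mul_one]
    nlinarith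
  | succ κ ih =>
    intro v j hv hj hκ s hs
    have hκ1 : 2 ^ (κ + 1) * (v + μ) = 2 ^ κ * (2 * v + μ + μ) := by ring
    have h2κ : 1 ≤ 2 ^ κ := Nat.one_le_two_pow
    have h2κ' : 1 * (2 * v + μ + μ) ≤ 2 ^ κ * (2 * v + μ + μ) := Nat.mul_le_mul_right _ h2κ
    obtain ⟨j', hj'⟩ : ∃ j' : ℕ, j' + (2 * v + μ) = N := ⟨N - (2 * v + μ), by omega⟩
    have hIH := ih (2 * v + μ) j' (by omega) hj' (by rw [← hκ1]; exact hκ)
    obtain ⟨ℓ, hℓ⟩ : ∃ ℓ : ℕ, ℓ = M * 2 ^ j' := ⟨_, rfl⟩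
    rw [← hℓ] at hIH
    have hℓpos : 0 < ℓ := by rw [hℓ]; positivity
    have hℓ2 : ℓ ≤ 2 ^ (2 * j - N) := by
      rw [hℓ]
      calc M * 2 ^ j' ≤ 2 ^ μ * 2 ^ j' := Nat.mul_le_mul_right _ hμ
        _ = 2 ^ (μ + j') := by rw [pow_add]
        _ = 2 ^ (2 * j - N) := by congr 1; omega
    have hj'j : M * 2 ^ j' ≤ M * 2 ^ j :=
      Nat.mul_le_mul_left _ (Nat.pow_le_pow_right (by norm_num) (by omega))
    obtain ⟨x, hx⟩ : ∃ x : ℝ, x = 1 / 2 ^ v := ⟨_, rfl⟩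
    obtain ⟨x', hx'⟩ : ∃ x' : ℝ, x' = 1 / 2 ^ (2 * v + μ) := ⟨_, rfl⟩
    have hx0 : 0 < x := by rw [hx]; positivity
    have hx1 : x ≤ 1 / 2 := by
      rw [hx]
      have : (2 : ℝ) ≤ 2 ^ v := by
        calc (2 : ℝ) = 2 ^ 1 := by norm_num
          _ ≤ 2 ^ v := pow_le_pow_right₀ (by norm_num) hv
      exact one_div_le_one_div_of_le (by norm_num) this
    have hx'0 : 0 < x' := by rw [hx']; positivity
    have hxx' : x' ≤ x * x := by
      rw [hx, hx', one_div_mul_one_div_rev, ← pow_add]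
      apply one_div_le_one_div_of_le (by positivity)
      exact pow_le_pow_right₀ (by norm_num) (by omega)
    have h1x' : 0 < 1 - x' := by nlinarith
    obtain ⟨B, hBd⟩ : ∃ B : ℝ, B = ℓ * ((R : ℝ) / M) ^ κ / (1 - x') := ⟨_, rfl⟩
    have hB : ∀ s' : ℕ, M * 2 ^ j ≤ s' → (cnt A s' ℓ : ℝ) ≤ B := by
      intro s' hs'
      have h5 := hIH s' (by omega)
      rw [hBd, le_div_iff₀ h1x', hx', hℓ]
      push_cast
      rw [hℓ] at h5
      exact h5
    obtain ⟨Q, hQ⟩ : ∃ Q : ℕ, Q = 2 ^ j / ℓ + 1 := ⟨_, rfl⟩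
    have hd1 := Nat.div_add_mod (2 ^ j) ℓ
    have hd2 := Nat.mod_lt (2 ^ j) hℓpos
    have hQℓ : Q * ℓ = ℓ * (2 ^ j / ℓ) + ℓ := by rw [hQ]; ring
    have hQ1 : 2 ^ j ≤ Q * ℓ := by omega
    have hQ2 : Q * ℓ ≤ 2 ^ j + 2 ^ (2 * j - N) := by omega
    have hblock := block hU hA hn (by omega) hℓpos (by omega) hQ1 hs B hB
    have hQ2R : (Q : ℝ) * ℓ ≤ 2 ^ j * (1 + x) := by
      have h6 : (Q : ℝ) * ℓ ≤ 2 ^ j + 2 ^ (2 * j - N) := by exact_mod_cast hQ2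
      have h7 : (2 : ℝ) ^ (2 * j - N) = 2 ^ j * x := by
        rw [hx, mul_one_div, eq_div_iff (by positivity), ← pow_add]
        congr 1
        omega
      rw [h7] at h6
      linarith
    rw [← hx]
    have hρ : (0 : ℝ) ≤ ((R : ℝ) / M) ^ κ := by positivity
    calc (cnt A s (M * 2 ^ j) : ℝ) * (1 - x) ≤ (Q * (R * B)) * (1 - x) :=
          mul_le_mul_of_nonneg_right hblock (by linarith)
      _ = (Q * ℓ) * (R * ((R : ℝ) / M) ^ κ * ((1 - x) / (1 - x'))) := by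
          rw [hBd]; field_simp
      _ ≤ (2 ^ j * (1 + x)) * (R * ((R : ℝ) / M) ^ κ * ((1 - x) / (1 - x'))) := by
          apply mul_le_mul_of_nonneg_right hQ2R
          have : 0 ≤ (1 - x) / (1 - x') := div_nonneg (by linarith) h1x'.le
          positivity
      _ = 2 ^ j * (R * ((R : ℝ) / M) ^ κ) * ((1 + x) * (1 - x) / (1 - x')) := by ring
      _ ≤ 2 ^ j * (R * ((R : ℝ) / M) ^ κ) * 1 := by
          apply mul_le_mul_of_nonneg_left _ (by positivity)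
          rw [div_le_one h1x']
          nlinarith
      _ = M * 2 ^ j * ((R : ℝ) / M) ^ (κ + 1) := by
          rw [pow_succ]; field_simp

theorem dyadic {k M R n N μ K l i : ℕ} {A : Finset ℕ} (hU : HU k M R) (hA : Av k n A)
    (hn : n < 2 ^ N) (hμ : M ≤ 2 ^ μ) (hK : 2 ^ K ≤ N) (hi : i < N)
    (hl : N - i + 2 * μ ≤ 2 ^ l) :
    (cnt A (2 ^ i) (2 ^ i) : ℝ) ≤ 4 * 2 ^ i * (((R : ℝ) / M) ^ K * 4 ^ l) := by
  classical
  obtain ⟨hR0, hRM, hM3, -⟩ := id hU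
  have hM0 : 0 < M := by omega
  have hMR : (0 : ℝ) < M := by exact_mod_cast hM0
  have hRR : (0 : ℝ) < R := by exact_mod_cast hR0
  obtain ⟨ρ, hρ⟩ : ∃ ρ : ℝ, ρ = (R : ℝ) / M := ⟨_, rfl⟩
  have hρ0 : 0 < ρ := by rw [hρ]; positivity
  have hρ3 : 1 ≤ 4 * ρ := by
    rw [hρ, ← mul_div_assoc, one_le_div hMR]
    have : (M : ℝ) ≤ 3 * R := by exact_mod_cast hM3
    linarith
  rw [← hρ]
  by_cases hlK : l ≤ K
  · have hiμ : μ ≤ i := by
      by_contra hcon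
      push Not at hcon
      have h1 : 2 ^ l ≤ 2 ^ K := Nat.pow_le_pow_right (by norm_num) hlK
      omega
    obtain ⟨j, rfl⟩ : ∃ j : ℕ, i = j + μ := ⟨i - μ, by omega⟩
    obtain ⟨v, hv⟩ : ∃ v : ℕ, j + v = N := ⟨N - j, by omega⟩
    have hκ : 2 ^ (K - l) * (v + μ) ≤ N + μ := by
      calc 2 ^ (K - l) * (v + μ) ≤ 2 ^ (K - l) * 2 ^ l := Nat.mul_le_mul_left _ (by omega)
        _ = 2 ^ K := by rw [← pow_add]; congr 1; omega
        _ ≤ N + μ := by omega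
    have hrec := recur hU hA hn hμ (K - l) v j (by omega) hv hκ
    rw [← hρ] at hrec
    obtain ⟨Q, hQ⟩ : ∃ Q : ℕ, Q = 2 ^ μ / M + 1 := ⟨_, rfl⟩
    have hd1 := Nat.div_add_mod (2 ^ μ) M
    have hd2 := Nat.mod_lt (2 ^ μ) hM0
    have hQM : Q * M = M * (2 ^ μ / M) + M := by rw [hQ]; ring
    have hQ1 : 2 ^ μ ≤ Q * M := by omega
    have hQ2 : Q * M ≤ 2 * 2 ^ μ := by omega
    have h2i : 2 ^ (j + μ) = 2 ^ μ * 2 ^ j := by rw [pow_add]; ring
    have hM2 : M * 2 ^ j ≤ 2 ^ (j + μ) := by rw [h2i]; exact Nat.mul_le_mul_right _ hμ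
    have hLpos : 0 < M * 2 ^ j := by positivity
    have hcell : ∀ e : ℕ, (cnt A (2 ^ (j + μ) + e * (M * 2 ^ j)) (M * 2 ^ j) : ℝ) ≤
        2 * (M * 2 ^ j * ρ ^ (K - l)) := by
      intro e
      have h1 := hrec (2 ^ (j + μ) + e * (M * 2 ^ j)) (by omega)
      have h2 : (1 : ℝ) / 2 ^ v ≤ 1 / 2 := by
        apply one_div_le_one_div_of_le (by norm_num)
        calc (2 : ℝ) = 2 ^ 1 := by norm_num
          _ ≤ 2 ^ v := pow_le_pow_right₀ (by norm_num) (by omega)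
      have h3 : (0 : ℝ) ≤ cnt A (2 ^ (j + μ) + e * (M * 2 ^ j)) (M * 2 ^ j) := Nat.cast_nonneg _
      nlinarith
    have hsub : A.filter (fun a => 2 ^ (j + μ) ≤ a ∧ a < 2 ^ (j + μ) + 2 ^ (j + μ)) ⊆
        (Finset.range Q).biUnion (fun e => A.filter (fun a =>
          2 ^ (j + μ) + e * (M * 2 ^ j) ≤ a ∧ a < 2 ^ (j + μ) + e * (M * 2 ^ j) + M * 2 ^ j)) := by
      intro a ha
      rw [Finset.mem_filter] at ha
      obtain ⟨haA, h1, h2⟩ := ha
      obtain ⟨x, rfl⟩ := Nat.exists_eq_add_of_le h1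
      have hx : x < 2 ^ μ * 2 ^ j := by rw [← h2i]; omega
      have he1 := Nat.div_add_mod x (M * 2 ^ j)
      have he2 := Nat.mod_lt x hLpos
      obtain ⟨e, he⟩ : ∃ e : ℕ, e = x / (M * 2 ^ j) := ⟨_, rfl⟩
      have heQ : e < Q := by
        rw [he]
        apply Nat.div_lt_of_lt_mul
        calc x < 2 ^ μ * 2 ^ j := hx
          _ ≤ Q * M * 2 ^ j := Nat.mul_le_mul_right _ hQ1
          _ = M * 2 ^ j * Q := by ring
      rw [← he] at he1
      rw [Finset.mem_biUnion]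
      refine ⟨e, Finset.mem_range.2 heQ, ?_⟩
      rw [Finset.mem_filter]
      have hc : M * 2 ^ j * e = e * (M * 2 ^ j) := Nat.mul_comm _ _
      refine ⟨haA, ?_, ?_⟩ <;> omega
    have hfin : (cnt A (2 ^ (j + μ)) (2 ^ (j + μ)) : ℝ) ≤ 4 * 2 ^ (j + μ) * ρ ^ (K - l) := by
      unfold cnt
      calc ((A.filter (fun a => 2 ^ (j + μ) ≤ a ∧ a < 2 ^ (j + μ) + 2 ^ (j + μ))).card : ℝ)
          ≤ (((Finset.range Q).biUnion (fun e => A.filter (fun a =>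
            2 ^ (j + μ) + e * (M * 2 ^ j) ≤ a ∧
              a < 2 ^ (j + μ) + e * (M * 2 ^ j) + M * 2 ^ j))).card : ℝ) := by
            exact_mod_cast Finset.card_le_card hsub
        _ ≤ ((∑ e ∈ Finset.range Q, (A.filter (fun a =>
            2 ^ (j + μ) + e * (M * 2 ^ j) ≤ a ∧
              a < 2 ^ (j + μ) + e * (M * 2 ^ j) + M * 2 ^ j)).card : ℕ) : ℝ) := by
            exact_mod_cast Finset.card_biUnion_le
        _ = ∑ e ∈ Finset.range Q,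
            (cnt A (2 ^ (j + μ) + e * (M * 2 ^ j)) (M * 2 ^ j) : ℝ) := by
            push_cast; rfl
        _ ≤ ∑ e ∈ Finset.range Q, 2 * (M * 2 ^ j * ρ ^ (K - l)) :=
            Finset.sum_le_sum (fun e _ => hcell e)
        _ = (Q * M) * (2 * 2 ^ j * ρ ^ (K - l)) := by
            rw [Finset.sum_const, Finset.card_range, nsmul_eq_mul]; ring
        _ ≤ (2 * 2 ^ μ) * (2 * 2 ^ j * ρ ^ (K - l)) := by
            apply mul_le_mul_of_nonneg_right _ (by positivity)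
            exact_mod_cast hQ2
        _ = 4 * 2 ^ (j + μ) * ρ ^ (K - l) := by rw [pow_add]; ring
    refine hfin.trans ?_
    apply mul_le_mul_of_nonneg_left _ (by positivity)
    have h5 : ρ ^ K = ρ ^ (K - l) * ρ ^ l := by rw [← pow_add]; congr 1; omega
    rw [h5, mul_assoc, ← mul_pow]
    have h6 : 1 ≤ (ρ * 4) ^ l := one_le_pow₀ (by linarith)
    have h7 : 0 < ρ ^ (K - l) := by positivity
    nlinarith
  · push Not at hlK
    have h1 : (cnt A (2 ^ i) (2 ^ i) : ℝ) ≤ 2 ^ i := by exact_mod_cast cnt_le A (2 ^ i) (2 ^ i)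
    have h2 : 1 ≤ ρ ^ K * 4 ^ l := by
      have h5 : (4 : ℝ) ^ l = 4 ^ K * 4 ^ (l - K) := by rw [← pow_add]; congr 1; omega
      rw [h5, ← mul_assoc, ← mul_pow]
      have h6 : 1 ≤ (ρ * 4) ^ K := one_le_pow₀ (by linarith)
      have h7 : (1 : ℝ) ≤ 4 ^ (l - K) := one_le_pow₀ (by norm_num)
      nlinarith
    have h3 : (0 : ℝ) < 2 ^ i := by positivity
    nlinarith

theorem summ (μ : ℕ) : Summable (fun u : ℕ => ((u : ℝ) + 2 * μ) ^ 2 / 2 ^ u) := by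
  have h1 : Summable (fun n : ℕ => (n : ℝ) ^ 2 * (1 / 2 : ℝ) ^ n) :=
    summable_pow_mul_geometric_of_norm_lt_one 2 (by rw [Real.norm_eq_abs, abs_of_pos] <;> norm_num)
  have h2 := ((summable_nat_add_iff (2 * μ)).2 h1).mul_left ((2 : ℝ) ^ (2 * μ))
  refine h2.congr (fun u => ?_)
  push_cast
  rw [pow_add (1 / 2 : ℝ), one_div_pow, one_div_pow]
  field_simp

/-- The upper bound. -/
theorem up {k M R : ℕ} (hU : HU k M R) : ∃ C : ℝ, 0 < C ∧ ∀ N : ℕ, 1 ≤ N → ∀ n : ℕ, n < 2 ^ N →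
    ∀ A : Finset ℕ, A ⊆ Finset.Icc 1 n → Av k n A →
      (A.card : ℝ) ≤ C * 2 ^ N * ((R : ℝ) / M) ^ (Nat.log 2 N) := by
  classical
  obtain ⟨hR0, hRM, -, -⟩ := id hU
  have hM0 : 0 < M := by omega
  have hMR : (0 : ℝ) < M := by exact_mod_cast hM0
  have hRR : (0 : ℝ) < R := by exact_mod_cast hR0
  obtain ⟨μ, hμ⟩ : ∃ μ : ℕ, M ≤ 2 ^ μ := ⟨M, Nat.lt_two_pow_self.le⟩
  obtain ⟨S, hS⟩ : ∃ S : ℝ, S = ∑' u : ℕ, ((u : ℝ) + 2 * μ) ^ 2 / 2 ^ u := ⟨_, rfl⟩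
  have hS0 : 0 ≤ S := by rw [hS]; exact tsum_nonneg (fun u => by positivity)
  refine ⟨16 * S + 1, by linarith, fun N hN n hn A hAn hA => ?_⟩
  obtain ⟨ρ, hρ⟩ : ∃ ρ : ℝ, ρ = (R : ℝ) / M := ⟨_, rfl⟩
  have hρ0 : 0 < ρ := by rw [hρ]; positivity
  obtain ⟨K, hK⟩ : ∃ K : ℕ, K = Nat.log 2 N := ⟨_, rfl⟩
  have hKN : 2 ^ K ≤ N := by rw [hK]; exact Nat.pow_log_le_self 2 (by omega)
  rw [← hρ, ← hK]
  have hterm : ∀ i ∈ Finset.range N, (cnt A (2 ^ i) (2 ^ i) : ℝ) ≤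
      16 * ρ ^ K * (2 ^ i * ((((N - i : ℕ) : ℝ)) + 2 * μ) ^ 2) := by
    intro i hi
    rw [Finset.mem_range] at hi
    obtain ⟨l, hl⟩ : ∃ l : ℕ, l = Nat.clog 2 (N - i + 2 * μ) := ⟨_, rfl⟩
    have h1 : N - i + 2 * μ ≤ 2 ^ l := by rw [hl]; exact Nat.le_pow_clog (by norm_num) _
    have h2 := dyadic hU hA hn hμ hKN hi h1
    rw [← hρ] at h2
    have h3 : 2 ^ l ≤ 2 * (N - i + 2 * μ) := by
      rcases Nat.lt_or_ge 1 (N - i + 2 * μ) with h | h
      · have h4 := Nat.pow_pred_clog_lt_self (b := 2) (by norm_num) h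
        rw [← hl] at h4
        have hl1 : 0 < l := by
          rw [hl]
          exact Nat.clog_pos (by norm_num) h
        have h5 : 2 ^ l = 2 * 2 ^ (l.pred) := by
          rw [← pow_succ']
          congr 1
          have := Nat.succ_pred_eq_of_pos hl1
          omega
        omega
      · have : N - i + 2 * μ = 1 := by omega
        rw [this] at hl ⊢
        rw [Nat.clog_one_right] at hl
        subst hl
        norm_num
    have h3R : (2 : ℝ) ^ l ≤ 2 * (((N - i : ℕ) : ℝ) + 2 * μ) := by exact_mod_cast h3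
    have h4R : (4 : ℝ) ^ l ≤ 4 * (((N - i : ℕ) : ℝ) + 2 * μ) ^ 2 := by
      have h6 : (4 : ℝ) ^ l = 2 ^ l * 2 ^ l := by
        rw [← mul_pow]; norm_num
      rw [h6]
      have h7 : (0 : ℝ) < 2 ^ l := by positivity
      nlinarith
    calc (cnt A (2 ^ i) (2 ^ i) : ℝ) ≤ 4 * 2 ^ i * (ρ ^ K * 4 ^ l) := h2
      _ ≤ 4 * 2 ^ i * (ρ ^ K * (4 * (((N - i : ℕ) : ℝ) + 2 * μ) ^ 2)) := by
          apply mul_le_mul_of_nonneg_left _ (by positivity)
          exact mul_le_mul_of_nonneg_left h4R (by positivity)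
      _ = _ := by ring
  have hcard : (A.card : ℝ) ≤ ∑ i ∈ Finset.range N, (cnt A (2 ^ i) (2 ^ i) : ℝ) := by
    have hsub : A ⊆ (Finset.range N).biUnion (fun i =>
        A.filter (fun a => 2 ^ i ≤ a ∧ a < 2 ^ i + 2 ^ i)) := by
      intro a ha
      have h1 := Finset.mem_Icc.1 (hAn ha)
      rw [Finset.mem_biUnion]
      refine ⟨Nat.log 2 a, ?_, ?_⟩
      · rw [Finset.mem_range]
        exact Nat.log_lt_of_lt_pow (by omega) (lt_of_le_of_lt h1.2 hn)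
      · rw [Finset.mem_filter]
        refine ⟨ha, Nat.pow_log_le_self 2 (by omega), ?_⟩
        have := Nat.lt_pow_succ_log_self (b := 2) (by norm_num) a
        rw [pow_succ] at this
        omega
    calc (A.card : ℝ) ≤ (((Finset.range N).biUnion (fun i =>
        A.filter (fun a => 2 ^ i ≤ a ∧ a < 2 ^ i + 2 ^ i))).card : ℝ) := by
          exact_mod_cast Finset.card_le_card hsub
      _ ≤ ((∑ i ∈ Finset.range N,
        (A.filter (fun a => 2 ^ i ≤ a ∧ a < 2 ^ i + 2 ^ i)).card : ℕ) : ℝ) := by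
          exact_mod_cast Finset.card_biUnion_le
      _ = ∑ i ∈ Finset.range N, (cnt A (2 ^ i) (2 ^ i) : ℝ) := by push_cast; rfl
  have hsum : ∑ i ∈ Finset.range N, ((2 : ℝ) ^ i * ((((N - i : ℕ) : ℝ)) + 2 * μ) ^ 2)
      ≤ 2 ^ N * S := by
    rw [← Finset.sum_range_reflect]
    have h1 : ∀ u ∈ Finset.range N, (2 : ℝ) ^ (N - 1 - u) *
        ((((N - (N - 1 - u) : ℕ) : ℝ)) + 2 * μ) ^ 2
        = 2 ^ N * ((((u + 1 : ℕ) : ℝ) + 2 * μ) ^ 2 / 2 ^ (u + 1)) := by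
      intro u hu
      rw [Finset.mem_range] at hu
      have h2 : N - (N - 1 - u) = u + 1 := by omega
      rw [h2, mul_div_assoc', eq_div_iff (by positivity)]
      have h3 : (2 : ℝ) ^ N = 2 ^ (N - 1 - u) * 2 ^ (u + 1) := by
        rw [← pow_add]; congr 1; omega
      rw [h3]
      ring
    rw [Finset.sum_congr rfl h1, ← Finset.mul_sum]
    apply mul_le_mul_of_nonneg_left _ (by positivity)
    have h2 : ∑ u ∈ Finset.range N, (((u + 1 : ℕ) : ℝ) + 2 * μ) ^ 2 / 2 ^ (u + 1)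
        ≤ ∑ u ∈ Finset.range (N + 1), ((u : ℝ) + 2 * μ) ^ 2 / 2 ^ u := by
      rw [Finset.sum_range_succ' _ N]
      have : (0 : ℝ) ≤ (((0 : ℕ) : ℝ) + 2 * μ) ^ 2 / 2 ^ 0 := by positivity
      linarith
    refine h2.trans ?_
    rw [hS]
    exact (summ μ).sum_le_tsum _ (fun u _ => by positivity)
  calc (A.card : ℝ) ≤ ∑ i ∈ Finset.range N, (cnt A (2 ^ i) (2 ^ i) : ℝ) := hcard
    _ ≤ ∑ i ∈ Finset.range N, 16 * ρ ^ K * (2 ^ i * ((((N - i : ℕ) : ℝ)) + 2 * μ) ^ 2) :=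
        Finset.sum_le_sum hterm
    _ = 16 * ρ ^ K * ∑ i ∈ Finset.range N, ((2 : ℝ) ^ i * ((((N - i : ℕ) : ℝ)) + 2 * μ) ^ 2) := by
        rw [Finset.mul_sum]
    _ ≤ 16 * ρ ^ K * (2 ^ N * S) := mul_le_mul_of_nonneg_left hsum (by positivity)
    _ ≤ (16 * S + 1) * 2 ^ N * ρ ^ K := by
        have : (0 : ℝ) ≤ 2 ^ N * ρ ^ K := by positivity
        nlinarith

end Pool.Agent.Y869.NP
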