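import Mathlib

set_option autoImplicit false

/-!
# Sets without near progressions whose difference is a power of two: the general construction

`Near A k d w`: the finite set `A` of integers meets the `k` blocks
`[b + i d, b + i d + w]`, `i < k`, for some integer `b`.
`PFree k H`: the finite set `H` contains no `k`-term progression whose difference is a power of
two. Scale by scale we put shifted copies of the previous set into the runs of a `PFree` set.
-/

namespace Pool.Agent.Y869.NP.Gen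

/-- near progression with `k` terms, difference `d`, width `w`, integer base point -/
def Near (A : Finset ℤ) (k : ℕ) (d w : ℤ) : Prop :=
  ∃ b : ℤ, ∀ i : ℕ, i < k → ∃ a ∈ A, b + i * d ≤ a ∧ a ≤ b + i * d + w

/-- no `k`-term progression whose difference is a power of two -/
def PFree (k : ℕ) (H : Finset ℕ) : Prop :=
  ∀ x e : ℕ, ¬ ∀ l : ℕ, l < k → x + l * 2 ^ e ∈ H

/-- sets of length `λ` good at level `m` with density `D` -/
def Q (N k m : ℕ) (D : ℝ) : Prop :=
  ∀ L : ℕ, 2 ^ m ≤ 2 * L → ∃ A : Finset ℤ, (∀ a ∈ A, 0 ≤ a ∧ a < L) ∧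
    (∀ j : ℕ, j < m → ∀ w : ℕ, w * 2 ^ N < 4 ^ j → ¬ Near A k (2 ^ j) w) ∧ D * L ≤ A.card

theorem w_lt {N j w : ℕ} (hjN : j ≤ N) (hw : w * 2 ^ N < 4 ^ j) : w < 2 ^ j := by
  by_contra hcon
  push Not at hcon
  have h4 : (4 : ℕ) ^ j = 2 ^ j * 2 ^ j := by
    rw [show (4 : ℕ) = 2 * 2 by norm_num, mul_pow]
  have h1 : 2 ^ j * 2 ^ j ≤ w * 2 ^ N :=
    Nat.mul_le_mul hcon (Nat.pow_le_pow_right (by norm_num) hjN)
  omega

/-- the start of runs -/
def starts (Y : Finset ℕ) : Finset ℕ := Y.filter (fun s => s = 0 ∨ s - 1 ∉ Y)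

theorem exists_end (Y : Finset ℕ) (s : ℕ) : ∃ l : ℕ, s + l ∉ Y := by
  by_contra hcon
  push Not at hcon
  have h1 : Set.Infinite (↑Y : Set ℕ) := by
    apply Set.infinite_of_injective_forall_mem (f := fun l : ℕ => s + l)
    · intro a b hab
      simpa using hab
    · intro l
      exact hcon l
  exact h1 Y.finite_toSet

open Classical in
/-- length of the run starting at `s` -/
noncomputable def len (Y : Finset ℕ) (s : ℕ) : ℕ := Nat.find (exists_end Y s)

theorem len_spec (Y : Finset ℕ) (s : ℕ) : s + len Y s ∉ Y := by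
  classical
  exact Nat.find_spec (exists_end Y s)

theorem len_mem (Y : Finset ℕ) (s l : ℕ) (hl : l < len Y s) : s + l ∈ Y := by
  classical
  by_contra h
  exact Nat.find_min (exists_end Y s) hl h

theorem len_pos {Y : Finset ℕ} {s : ℕ} (hs : s ∈ Y) : 0 < len Y s := by
  rcases Nat.eq_zero_or_pos (len Y s) with h | h
  · exfalso
    have := len_spec Y s
    rw [h, add_zero] at this
    exact this hs
  · exact h

theorem cover {Y : Finset ℕ} : ∀ y : ℕ, y ∈ Y → ∃ s ∈ starts Y, s ≤ y ∧ y < s + len Y s := by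
  intro y
  induction y with
  | zero =>
    intro hy
    exact ⟨0, by rw [starts, Finset.mem_filter]; exact ⟨hy, Or.inl rfl⟩, le_rfl, by
      have := len_pos hy; omega⟩
  | succ y ih =>
    intro hy
    by_cases h : y ∈ Y
    · obtain ⟨s, hs, h1, h2⟩ := ih h
      refine ⟨s, hs, by omega, ?_⟩
      have h3 := len_spec Y s
      by_contra hcon
      have : y + 1 = s + len Y s := by omega
      rw [← this] at h3
      exact h3 hy
    · refine ⟨y + 1, ?_, le_rfl, by have := len_pos hy; omega⟩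
      rw [starts, Finset.mem_filter]
      exact ⟨hy, Or.inr (by simpa using h)⟩

theorem sep {Y : Finset ℕ} {s s' : ℕ} (hs' : s' ∈ starts Y) (h : s < s') :
    s + len Y s + 1 ≤ s' := by
  rw [starts, Finset.mem_filter] at hs'
  obtain ⟨hs'Y, h0⟩ := hs'
  have h1 : s' - 1 ∉ Y := by
    rcases h0 with h0 | h0
    · omega
    · exact h0
  by_contra hcon
  push Not at hcon
  rcases Nat.lt_or_ge (s' - s) (len Y s) with h2 | h2
  · -- `s'` inside the run, then `s' - 1` inside the run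
    have h3 := len_mem Y s (s' - 1 - s) (by omega)
    rw [show s + (s' - 1 - s) = s' - 1 by omega] at h3
    exact h1 h3
  · have h3 : s' = s + len Y s := by omega
    have := len_spec Y s
    rw [← h3] at this
    exact this hs'Y

theorem card_le_sum (Y : Finset ℕ) : Y.card ≤ ∑ s ∈ starts Y, len Y s := by
  classical
  have hsub : Y ⊆ (starts Y).biUnion (fun s => Finset.Ico s (s + len Y s)) := by
    intro y hy
    obtain ⟨s, hs, h1, h2⟩ := cover y hy
    rw [Finset.mem_biUnion]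
    exact ⟨s, hs, Finset.mem_Ico.2 ⟨h1, h2⟩⟩
  calc Y.card ≤ _ := Finset.card_le_card hsub
    _ ≤ ∑ s ∈ starts Y, (Finset.Ico s (s + len Y s)).card := Finset.card_biUnion_le
    _ = ∑ s ∈ starts Y, len Y s := by
        apply Finset.sum_congr rfl
        intro s _
        rw [Nat.card_Ico]; omega

/-- One step of the construction. -/
theorem step {N k m g r : ℕ} {D ρ : ℝ} (hk : 0 < k) (hD : 0 ≤ D) (hρ : 0 ≤ ρ) (hr1 : 1 ≤ r)
    (hrm : r ≤ m) (hg1 : 1 ≤ g) (hmN : m ≤ N)
    (hex : ∀ M : ℕ, ∃ Y : Finset ℕ, Y ⊆ Finset.range M ∧ PFree k Y ∧ ρ * M ≤ Y.card)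
    (hQ : Q N k m D) (hw : ∀ j w : ℕ, j < m + g → w * 2 ^ N < 4 ^ j → w ≤ 2 ^ (m - r)) :
    Q N k (m + g) (D * ρ * ((1 - 1 / 2 ^ r) * (1 - 1 / 2 ^ (g - 1)))) := by
  classical
  intro L hL
  obtain ⟨P, hP⟩ : ∃ P : ℕ, P = 2 ^ m := ⟨_, rfl⟩
  have hPpos : 0 < P := by rw [hP]; positivity
  obtain ⟨G, hG⟩ : ∃ G : ℕ, G = 2 ^ (m - r) := ⟨_, rfl⟩
  have hGP : G * 2 ^ r = P := by rw [hG, hP, ← pow_add]; congr 1; omega
  have hG2 : 2 * G ≤ P := by
    have : 2 ^ 1 ≤ 2 ^ r := Nat.pow_le_pow_right (by norm_num) hr1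
    rw [← hGP]
    nlinarith
  obtain ⟨Y, hYM, hYfree, hYcard⟩ := hex (L / P)
  -- the sets for the run lengths
  have hA : ∀ l : ℕ, ∃ A : Finset ℤ, 1 ≤ l → ((∀ a ∈ A, 0 ≤ a ∧ a < (l * P : ℤ) - G) ∧
      (∀ j : ℕ, j < m → ∀ w : ℕ, w * 2 ^ N < 4 ^ j → ¬ Near A k (2 ^ j) w) ∧
      D * ((l * P : ℝ) - G) ≤ A.card) := by
    intro l
    by_cases hl : 1 ≤ l
    · have h1 : P ≤ l * P := Nat.le_mul_of_pos_left _ hl
      obtain ⟨A, hA1, hA2, hA3⟩ := hQ (l * P - G) (by rw [← hP]; omega)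
      have hc : ((l * P - G : ℕ) : ℤ) = (l * P : ℤ) - G := by
        rw [Nat.cast_sub (by omega)]; push_cast; ring
      have hc' : ((l * P - G : ℕ) : ℝ) = (l * P : ℝ) - G := by
        rw [Nat.cast_sub (by omega)]; push_cast; ring
      rw [hc] at hA1
      rw [hc'] at hA3
      exact ⟨A, fun _ => ⟨hA1, hA2, hA3⟩⟩
    · exact ⟨∅, fun h => absurd h hl⟩
  choose A hA using hA
  have hstartY : ∀ s ∈ starts Y, s ∈ Y := fun s hs => (Finset.mem_filter.1 hs).1
  let f : ℕ → Finset ℤ := fun s => (A (len Y s)).image (fun x => (P : ℤ) * s + G + x)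
  have hf : ∀ s ∈ starts Y, ∀ a ∈ f s, (P : ℤ) * s + G ≤ a ∧ a < P * (s + len Y s) := by
    intro s hs a ha
    rw [Finset.mem_image] at ha
    obtain ⟨x, hx, rfl⟩ := ha
    have := ((hA (len Y s)) (len_pos (hstartY s hs))).1 x hx
    constructor
    · linarith
    · have : (P : ℤ) * (s + len Y s) = P * s + len Y s * P := by ring
      linarith
  have hPZ : (0 : ℤ) < P := by exact_mod_cast hPpos
  have hsepZ : ∀ s ∈ starts Y, ∀ s' ∈ starts Y, s < s' →
      (P : ℤ) * (s + len Y s) + P ≤ P * s' := by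
    intro s _ s' hs' h
    have h1 := sep hs' h
    have h2 : (s : ℤ) + len Y s + 1 ≤ s' := by exact_mod_cast h1
    have h3 := mul_le_mul_of_nonneg_left h2 hPZ.le
    linarith
  refine ⟨(starts Y).biUnion f, ?_, ?_, ?_⟩
  · -- range
    intro a ha
    rw [Finset.mem_biUnion] at ha
    obtain ⟨s, hs, ha⟩ := ha
    obtain ⟨h1, h2⟩ := hf s hs a ha
    constructor
    · have : (0 : ℤ) ≤ P * s + G := by positivity
      linarith
    · have h3 := len_mem Y s (len Y s - 1) (by have := len_pos (hstartY s hs); omega)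
      have h4 := Finset.mem_range.1 (hYM h3)
      have h5 : s + len Y s ≤ L / P := by have := len_pos (hstartY s hs); omega
      have h6 : P * (s + len Y s) ≤ L :=
        (Nat.mul_le_mul_left P h5).trans (Nat.mul_div_le L P)
      have h7 : (P : ℤ) * (s + len Y s) ≤ L := by exact_mod_cast h6
      linarith
  · -- avoidance
    intro j hj w hwj hnear
    obtain ⟨b, hb⟩ := hnear
    rcases le_or_gt m j with hmj | hjm
    · obtain ⟨e, rfl⟩ := Nat.exists_eq_add_of_le hmj
      have hwG : (w : ℤ) ≤ G := by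
        rw [hG]; exact_mod_cast hw _ w hj hwj
      -- the cells
      have hβ0 := Int.emod_nonneg b hPZ.ne'
      have hβ1 := Int.emod_lt_of_pos b hPZ
      have hbd := Int.emod_add_mul_ediv b (P : ℤ)
      obtain ⟨y, hy⟩ : ∃ y : ℤ, y = b / P := ⟨_, rfl⟩
      obtain ⟨β, hβ⟩ : ∃ β : ℤ, β = b % P := ⟨_, rfl⟩
      rw [← hβ] at hβ0 hβ1 hbd
      rw [← hy] at hbd
      have hcell : ∀ i : ℕ, i < k → ∃ z : ℕ, (z : ℤ) = y + i * 2 ^ e ∧ z ∈ Y := by
        intro i hi
        obtain ⟨a, ha, h1, h2⟩ := hb i hi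
        rw [Finset.mem_biUnion] at ha
        obtain ⟨s, hs, ha⟩ := ha
        obtain ⟨h3, h4⟩ := hf s hs a ha
        obtain ⟨U, hU⟩ : ∃ U : ℤ, U = y + i * 2 ^ e := ⟨_, rfl⟩
        have hbi : b + i * 2 ^ (m + e) = β + P * U := by
          have : (P : ℤ) = 2 ^ m := by rw [hP]; push_cast; rfl
          rw [hU, pow_add, ← this]
          linear_combination -hbd
        rw [hbi] at h1 h2
        -- s ≤ U < s + len
        have h5 : (s : ℤ) ≤ U := by
          by_contra hcon
          push Not at hcon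
          have h6 : U + 1 ≤ s := hcon
          have h7 := mul_le_mul_of_nonneg_left h6 hPZ.le
          linarith
        have h6 : U < s + len Y s := by
          by_contra hcon
          push Not at hcon
          have h7 := mul_le_mul_of_nonneg_left hcon hPZ.le
          linarith
        have hU0 : 0 ≤ U := by linarith [Int.natCast_nonneg s]
        obtain ⟨z, hz⟩ := Int.eq_ofNat_of_zero_le hU0
        refine ⟨z, by rw [← hU, hz], ?_⟩
        rw [hz] at h5 h6
        have h8 : s ≤ z := by exact_mod_cast h5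
        have h9 : z < s + len Y s := by exact_mod_cast h6
        have := len_mem Y s (z - s) (by omega)
        rwa [show s + (z - s) = z by omega] at this
      obtain ⟨z₀, hz₀, hz₀Y⟩ := hcell 0 hk
      refine hYfree z₀ e (fun l hl => ?_)
      obtain ⟨z, hz, hzY⟩ := hcell l hl
      have : z = z₀ + l * 2 ^ e := by
        have h1 : (z : ℤ) = z₀ + l * 2 ^ e := by
          rw [hz, hz₀]; push_cast; ring
        exact_mod_cast h1
      rw [← this]
      exact hzY
    · -- small differences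
      have hex' : ∀ i : ℕ, ∃ s : ℕ, ∃ x : ℤ, i < k → s ∈ starts Y ∧ x ∈ A (len Y s) ∧
          b + i * 2 ^ j ≤ P * s + G + x ∧ P * s + G + x ≤ b + i * 2 ^ j + w := by
        intro i
        by_cases hi : i < k
        · obtain ⟨a, ha, h3, h4⟩ := hb i hi
          rw [Finset.mem_biUnion] at ha
          obtain ⟨s, hs, ha⟩ := ha
          rw [Finset.mem_image] at ha
          obtain ⟨x, hx, rfl⟩ := ha
          exact ⟨s, x, fun _ => ⟨hs, hx, h3, h4⟩⟩
        · exact ⟨0, 0, fun h => absurd h hi⟩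
      choose s x hsx using hex'
      have hwlt : w < 2 ^ j := w_lt (by omega) hwj
      have hwlt' : (w : ℤ) + 1 ≤ 2 ^ j := by exact_mod_cast hwlt
      have hjP : 2 * (2 : ℤ) ^ j ≤ P := by
        rw [hP]
        push_cast
        calc 2 * (2 : ℤ) ^ j = 2 ^ (j + 1) := by ring
          _ ≤ 2 ^ m := pow_le_pow_right₀ (by norm_num) hjm
      have hconst : ∀ i : ℕ, i < k → s i = s 0 := by
        intro i
        induction i with
        | zero => intro _; rfl
        | succ i ih =>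
          intro hi
          rw [← ih (by omega)]
          obtain ⟨e0, e1, e2, e3⟩ := hsx i (by omega)
          obtain ⟨f0, f1, f2, f3⟩ := hsx (i + 1) hi
          have a1 := hf _ e0 _ (Finset.mem_image_of_mem _ e1)
          have a2 := hf _ f0 _ (Finset.mem_image_of_mem _ f1)
          push_cast at f2 f3
          have hGn : (0 : ℤ) ≤ G := by positivity
          rcases lt_trichotomy (s (i + 1)) (s i) with hlt | heq | hgt
          · exfalso
            have := hsepZ _ f0 _ e0 hlt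
            linarith
          · exact heq
          · exfalso
            have := hsepZ _ e0 _ f0 hgt
            linarith
      have hs0 := (hsx 0 hk).1
      refine ((hA (len Y (s 0))) (len_pos (hstartY _ hs0))).2.1 j hjm w hwj
        ⟨b - (P * s 0 + G), fun i hi => ⟨x i, ?_, ?_, ?_⟩⟩
      · have := (hsx i hi).2.1
        rwa [hconst i hi] at this
      · have := (hsx i hi).2.2.1
        rw [hconst i hi] at this
        linarith
      · have := (hsx i hi).2.2.2
        rw [hconst i hi] at this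
        linarith
  · -- cardinality
    have hdisj : ∀ s ∈ starts Y, ∀ s' ∈ starts Y, s ≠ s' → Disjoint (f s) (f s') := by
      intro s hs s' hs' hne
      rw [Finset.disjoint_left]
      intro a ha ha'
      have h1 := hf s hs a ha
      have h2 := hf s' hs' a ha'
      have hGn : (0 : ℤ) ≤ G := by positivity
      rcases lt_or_gt_of_ne hne with h | h
      · have := hsepZ s hs s' hs' h
        linarith
      · have := hsepZ s' hs' s hs h
        linarith
    rw [Finset.card_biUnion hdisj]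
    have hcardf : ∀ s, (f s).card = (A (len Y s)).card := by
      intro s
      apply Finset.card_image_of_injective
      intro a b hab
      simpa using hab
    push_cast
    have hGR : (G : ℝ) * 2 ^ r = P := by exact_mod_cast hGP
    have hPR : (0 : ℝ) < P := by exact_mod_cast hPpos
    have hGR' : (G : ℝ) = P * (1 / 2 ^ r) := by
      rw [mul_one_div, eq_div_iff (by positivity)]
      exact hGR
    have hr' : (1 : ℝ) / 2 ^ r ≤ 1 := by
      rw [div_le_one (by positivity)]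
      exact one_le_pow₀ (by norm_num)
    obtain ⟨δ, hδ⟩ : ∃ δ : ℝ, δ = 1 / 2 ^ r := ⟨_, rfl⟩
    rw [← hδ] at hGR' hr' ⊢
    obtain ⟨η, hη⟩ : ∃ η : ℝ, η = 1 / 2 ^ (g - 1) := ⟨_, rfl⟩
    rw [← hη]
    have hη1 : η ≤ 1 := by
      rw [hη, div_le_one (by positivity)]
      exact one_le_pow₀ (by norm_num)
    have h1 : ∀ s ∈ starts Y, D * ((1 - δ) * P) * (len Y s : ℝ) ≤ ((f s).card : ℝ) := by
      intro s hs
      rw [hcardf s]
      have hl := len_pos (hstartY s hs)
      have h2 := ((hA (len Y s)) hl).2.2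
      refine le_trans ?_ h2
      have hl' : (1 : ℝ) ≤ len Y s := by exact_mod_cast hl
      have hδ0 : 0 ≤ δ := by rw [hδ]; positivity
      rw [mul_assoc]
      apply mul_le_mul_of_nonneg_left _ hD
      rw [hGR']
      have : 0 ≤ δ * P * ((len Y s : ℝ) - 1) := by
        apply mul_nonneg (by positivity)
        linarith
      nlinarith
    have h3 : (P : ℝ) * ((L / P : ℕ) : ℝ) ≥ (1 - η) * L := by
      have h4 : L ≤ P * (L / P) + P := by
        have := Nat.div_add_mod L P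
        have := Nat.mod_lt L hPpos
        omega
      have h4R : (L : ℝ) ≤ P * ((L / P : ℕ) : ℝ) + P := by exact_mod_cast h4
      have h5 : (P : ℝ) ≤ η * L := by
        have h6 : P * 2 ^ (g - 1) ≤ L := by
          have h7 : 2 ^ (m + g) = 2 * (P * 2 ^ (g - 1)) := by
            rw [hP, ← pow_add, ← pow_succ']; congr 1; omega
          omega
        have h6R : (P : ℝ) * 2 ^ (g - 1) ≤ L := by exact_mod_cast h6
        rw [hη, one_div, inv_mul_eq_div, le_div_iff₀ (by positivity)]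
        exact h6R
      linarith
    have hsumcard : (Y.card : ℝ) ≤ ∑ s ∈ starts Y, (len Y s : ℝ) := by
      exact_mod_cast card_le_sum Y
    calc D * ρ * ((1 - δ) * (1 - η)) * L = D * (1 - δ) * ρ * ((1 - η) * L) := by ring
      _ ≤ D * (1 - δ) * ρ * (P * ((L / P : ℕ) : ℝ)) := by
          apply mul_le_mul_of_nonneg_left h3
          have : 0 ≤ 1 - δ := by linarith
          positivity
      _ = D * ((1 - δ) * P) * (ρ * ((L / P : ℕ) : ℝ)) := by ring
      _ ≤ D * ((1 - δ) * P) * (Y.card : ℝ) := by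
          apply mul_le_mul_of_nonneg_left hYcard
          have : 0 ≤ 1 - δ := by linarith
          positivity
      _ ≤ D * ((1 - δ) * P) * ∑ s ∈ starts Y, (len Y s : ℝ) := by
          apply mul_le_mul_of_nonneg_left hsumcard
          have : 0 ≤ 1 - δ := by linarith
          positivity
      _ = ∑ s ∈ starts Y, D * ((1 - δ) * P) * (len Y s : ℝ) := by rw [Finset.mul_sum]
      _ ≤ ∑ s ∈ starts Y, ((f s).card : ℝ) := Finset.sum_le_sum h1

/-- The first level. -/
theorem base {N k m : ℕ} {ρ : ℝ} (hk : 0 < k)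
    (hex : ∀ M : ℕ, ∃ Y : Finset ℕ, Y ⊆ Finset.range M ∧ PFree k Y ∧ ρ * M ≤ Y.card)
    (hw : ∀ j w : ℕ, j < m → w * 2 ^ N < 4 ^ j → w = 0) : Q N k m ρ := by
  classical
  intro L _
  obtain ⟨Y, hY1, hY2, hY3⟩ := hex L
  refine ⟨Y.image (fun y : ℕ => (y : ℤ)), ?_, ?_, ?_⟩
  · intro a ha
    rw [Finset.mem_image] at ha
    obtain ⟨y, hy, rfl⟩ := ha
    have := Finset.mem_range.1 (hY1 hy)
    exact ⟨by positivity, by exact_mod_cast this⟩
  · rintro j hj w hwj ⟨b, hb⟩
    have hw0 := hw j w hj hwj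
    subst hw0
    have hall : ∀ i : ℕ, i < k → ∃ y ∈ Y, (y : ℤ) = b + i * 2 ^ j := by
      intro i hi
      obtain ⟨a, ha, h3, h4⟩ := hb i hi
      rw [Finset.mem_image] at ha
      obtain ⟨y, hy, rfl⟩ := ha
      push_cast at h4
      exact ⟨y, hy, by linarith⟩
    obtain ⟨y₀, hy₀, hb0⟩ := hall 0 hk
    refine hY2 y₀ j (fun l hl => ?_)
    obtain ⟨y, hy, hby⟩ := hall l hl
    have : y = y₀ + l * 2 ^ j := by
      have h1 : (y : ℤ) = y₀ + l * 2 ^ j := by rw [hby, hb0]; push_cast; ring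
      exact_mod_cast h1
    rw [← this]
    exact hy
  · rw [Finset.card_image_of_injective _ (fun a b hab => by simpa using hab)]
    exact hY3

/-- All levels. -/
theorem chain {N k I : ℕ} {ρ : ℝ} (hk : 0 < k) (hρ0 : 0 ≤ ρ)
    (hex : ∀ M : ℕ, ∃ Y : Finset ℕ, Y ⊆ Finset.range M ∧ PFree k Y ∧ ρ * M ≤ Y.card)
    (hN1 : 4 * 2 ^ I + 2 * I + 6 ≤ N) (hN2 : N ≤ 4 * 2 ^ (I + 1) + 2 * I + 8) :
    ∀ l i : ℕ, i + l = I → ∀ m : ℕ, m + (4 * 2 ^ i + i + 3) = N →
      Q N k m (ρ * ρ ^ l * (1 - 1 / 2 ^ (i + 1))) := by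
  intro l
  induction l with
  | zero =>
    intro i hi m hm
    rw [Nat.add_zero] at hi
    subst hi
    have hwz : ∀ j w : ℕ, j < m → w * 2 ^ N < 4 ^ j → w = 0 := by
      intro j w hj hwj
      by_contra hw0
      have h2j : 2 * j ≤ N := by
        have : 4 * 2 ^ (i + 1) = 2 * (4 * 2 ^ i) := by ring
        omega
      have : 4 ^ j ≤ 2 ^ N := by
        calc 4 ^ j = 2 ^ (2 * j) := by rw [pow_mul]; norm_num
          _ ≤ 2 ^ N := Nat.pow_le_pow_right (by norm_num) h2j
      have : 1 * 2 ^ N ≤ w * 2 ^ N := Nat.mul_le_mul_right _ (by omega)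
      omega
    have hb := base (N := N) (m := m) hk hex hwz
    intro L hL
    obtain ⟨A, h1, h2, h3⟩ := hb L hL
    refine ⟨A, h1, h2, le_trans ?_ h3⟩
    apply mul_le_mul_of_nonneg_right _ (Nat.cast_nonneg _)
    rw [pow_zero, mul_one]
    have : (0 : ℝ) < 1 / 2 ^ (i + 1) := by positivity
    nlinarith
  | succ l ih =>
    intro i hi m hm
    have hle : i + 1 ≤ I := by omega
    have h2 : 2 ^ (i + 1) ≤ 2 ^ I := Nat.pow_le_pow_right (by norm_num) hle
    have h4 : 4 * 2 ^ (i + 1) = 2 * (4 * 2 ^ i) := by ring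
    obtain ⟨X, hX⟩ : ∃ X : ℕ, X = 4 * 2 ^ i := ⟨_, rfl⟩
    have hi2 : i + 1 ≤ 2 ^ i := Nat.lt_two_pow_self
    rw [← hX] at hm
    obtain ⟨m₁, hm₁⟩ : ∃ m₁ : ℕ, m₁ + (2 * X + (i + 1) + 3) = N :=
      ⟨N - (2 * X + (i + 1) + 3), by omega⟩
    have hQ := ih (i + 1) (by omega) m₁ (by rw [h4, ← hX]; exact hm₁)
    obtain ⟨g, hg⟩ : ∃ g : ℕ, g = X + 1 := ⟨_, rfl⟩
    have hmg : m = m₁ + g := by omega
    subst hmg
    have hD0 : (0 : ℝ) ≤ ρ * ρ ^ l * (1 - 1 / 2 ^ (i + 1 + 1)) := by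
      have : (1 : ℝ) / 2 ^ (i + 1 + 1) ≤ 1 := by
        rw [div_le_one (by positivity)]
        exact one_le_pow₀ (by norm_num)
      have h5 : (0 : ℝ) ≤ 1 - 1 / 2 ^ (i + 1 + 1) := by linarith
      positivity
    have hstep := step (N := N) (m := m₁) (g := g) (r := i + 4) hk hD0 hρ0 (by omega)
      (by omega) (by omega) (by omega) hex hQ ?_
    · intro L hL
      obtain ⟨A, h1, h2, h3⟩ := hstep L hL
      refine ⟨A, h1, h2, le_trans ?_ h3⟩
      apply mul_le_mul_of_nonneg_right _ (Nat.cast_nonneg _)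
      obtain ⟨x, hx⟩ : ∃ x : ℝ, x = 1 / 2 ^ (i + 2) := ⟨_, rfl⟩
      have hx0 : 0 < x := by rw [hx]; positivity
      have hx1 : x ≤ 1 / 4 := by
        rw [hx]
        have : (4 : ℝ) ≤ 2 ^ (i + 2) := by
          calc (4 : ℝ) = 2 ^ 2 := by norm_num
            _ ≤ 2 ^ (i + 2) := pow_le_pow_right₀ (by norm_num) (by omega)
        exact one_div_le_one_div_of_le (by norm_num) this
      have hx2 : (1 : ℝ) / 2 ^ (i + 1) = 2 * x := by
        rw [hx]
        field_simp
        ring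
      have hx3 : (1 : ℝ) / 2 ^ (i + 4) = x / 4 := by
        rw [hx]
        field_simp
        ring
      have hx4 : (1 : ℝ) / 2 ^ (g - 1) ≤ x / 4 := by
        rw [← hx3]
        apply one_div_le_one_div_of_le (by positivity)
        exact pow_le_pow_right₀ (by norm_num) (by omega)
      have hx5 : (0 : ℝ) < 1 / 2 ^ (g - 1) := by positivity
      have hρl : 0 ≤ ρ * ρ ^ l * ρ := by positivity
      rw [show i + 1 + 1 = i + 2 from rfl, ← hx, hx2, hx3, pow_succ]
      have hkey : 1 - 2 * x ≤ (1 - x) * ((1 - x / 4) * (1 - 1 / 2 ^ (g - 1))) := by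
        have h6 : (1 - x / 4) * (1 - x / 4) ≤ (1 - x / 4) * (1 - 1 / 2 ^ (g - 1)) := by
          apply mul_le_mul_of_nonneg_left _ (by linarith)
          linarith
        have h7 : (1 - x) * ((1 - x / 4) * (1 - x / 4)) ≤
            (1 - x) * ((1 - x / 4) * (1 - 1 / 2 ^ (g - 1))) :=
          mul_le_mul_of_nonneg_left h6 (by linarith)
        have h8 : 1 - 2 * x ≤ (1 - x) * ((1 - x / 4) * (1 - x / 4)) := by
          have h9 : (1 - x) * ((1 - x / 4) * (1 - x / 4)) =
              1 - 3 / 2 * x + 9 / 16 * (x * x) - 1 / 16 * (x * x * x) := by ring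
          have h10 : 0 < x * x := mul_pos hx0 hx0
          have h11 : x * x ≤ x := by nlinarith
          have h12 : x * x * x ≤ x := by nlinarith
          rw [h9]
          linarith
        linarith
      calc ρ * (ρ ^ l * ρ) * (1 - 2 * x) = (ρ * ρ ^ l * ρ) * (1 - 2 * x) := by ring
        _ ≤ (ρ * ρ ^ l * ρ) * ((1 - x) * ((1 - x / 4) * (1 - 1 / 2 ^ (g - 1)))) :=
            mul_le_mul_of_nonneg_left hkey hρl
        _ = _ := by ring
    · intro j w hj hwj
      have h5 : 4 ^ j ≤ 2 ^ (N + (m₁ - (i + 4))) := by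
        calc 4 ^ j = 2 ^ (2 * j) := by rw [pow_mul]; norm_num
          _ ≤ 2 ^ (N + (m₁ - (i + 4))) := Nat.pow_le_pow_right (by norm_num) (by omega)
      have h6 : w * 2 ^ N < 2 ^ (m₁ - (i + 4)) * 2 ^ N := by
        rw [pow_add] at h5
        linarith
      exact (lt_of_mul_lt_mul_right h6 (by positivity)).le

/-- The construction for all large `N`. -/
theorem low {k : ℕ} {ρ : ℝ} (hk : 2 ≤ k) (hρ0 : 0 < ρ) (hρ1 : ρ ≤ 1)
    (hex : ∀ M : ℕ, ∃ Y : Finset ℕ, Y ⊆ Finset.range M ∧ PFree k Y ∧ ρ * M ≤ Y.card) :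
    ∃ c₀ : ℝ, 0 < c₀ ∧ ∃ N₀ : ℕ, ∀ N : ℕ, N₀ ≤ N →
    ∀ n : ℕ, 2 ^ N ≤ n → ∃ A : Finset ℕ, A ⊆ Finset.Icc 1 n ∧
      (∀ j w : ℕ, w * n < (2 ^ j) ^ 2 → ¬ ∃ b : ℕ, ∀ i ∈ Finset.Icc 1 k,
        ∃ a ∈ A, b + i * 2 ^ j ≤ a ∧ a ≤ b + i * 2 ^ j + w) ∧
      c₀ * 2 ^ N * ρ ^ (Nat.log 2 N) ≤ A.card := by
  classical
  refine ⟨ρ / 2 ^ 9, by positivity, 10, fun N hN n hn => ?_⟩
  -- the number of levels
  have hex' : ∃ J : ℕ, N < 4 * 2 ^ J + 2 * J + 6 := ⟨N, by
    have : N < 2 ^ N := Nat.lt_two_pow_self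
    omega⟩
  obtain ⟨J, hJ1, hJ2⟩ : ∃ J : ℕ, N < 4 * 2 ^ J + 2 * J + 6 ∧
      ∀ J' < J, ¬ N < 4 * 2 ^ J' + 2 * J' + 6 :=
    ⟨Nat.find hex', Nat.find_spec hex', fun J' hJ' => Nat.find_min hex' hJ'⟩
  have hJ0 : 0 < J := by
    rcases Nat.eq_zero_or_pos J with h | h
    · subst h
      norm_num at hJ1
      omega
    · exact h
  obtain ⟨I, rfl⟩ : ∃ I : ℕ, J = I + 1 := ⟨J - 1, by omega⟩
  have hN1 : 4 * 2 ^ I + 2 * I + 6 ≤ N := by
    have := hJ2 I (by omega)
    omega
  have hN2 : N ≤ 4 * 2 ^ (I + 1) + 2 * I + 8 := by omega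
  obtain ⟨m, hm⟩ : ∃ m : ℕ, m + 7 = N := ⟨N - 7, by omega⟩
  have hQ := chain (by omega : 0 < k) hρ0.le hex hN1 hN2 I 0 (by omega) m (by omega)
  have h2m : 2 ^ m = 2 * 2 ^ (m - 1) := by rw [← pow_succ']; congr 1; omega
  obtain ⟨A, hA1, hA2, hA3⟩ := hQ (2 ^ (m - 1)) (by omega)
  have hmN : 2 ^ (m - 1) ≤ 2 ^ N := Nat.pow_le_pow_right (by norm_num) (by omega)
  have hnZ : (2 : ℤ) ^ N ≤ n := by exact_mod_cast hn
  have hmNZ : ((2 ^ (m - 1) : ℕ) : ℤ) ≤ 2 ^ N := by exact_mod_cast hmN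
  refine ⟨A.image (fun a => (a + 1).toNat), ?_, ?_, ?_⟩
  · intro x hx
    rw [Finset.mem_image] at hx
    obtain ⟨a, ha, rfl⟩ := hx
    obtain ⟨h1, h2⟩ := hA1 a ha
    rw [Finset.mem_Icc]
    constructor
    · omega
    · rw [Int.toNat_le]
      linarith
  · rintro j w hw ⟨b, hb⟩
    have hw' : w * 2 ^ N < 4 ^ j := by
      calc w * 2 ^ N ≤ w * n := Nat.mul_le_mul_left _ hn
        _ < (2 ^ j) ^ 2 := hw
        _ = 4 ^ j := by rw [← pow_mul, mul_comm, pow_mul]; norm_num
    have hZ : ∀ i ∈ Finset.Icc 1 k, ∃ a ∈ A, (b : ℤ) + i * 2 ^ j ≤ a + 1 ∧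
        a + 1 ≤ (b : ℤ) + i * 2 ^ j + w := by
      intro i hi
      obtain ⟨x, hx, h1, h2⟩ := hb i hi
      rw [Finset.mem_image] at hx
      obtain ⟨a, ha, rfl⟩ := hx
      obtain ⟨h3, h4⟩ := hA1 a ha
      refine ⟨a, ha, ?_, ?_⟩
      · have : ((b + i * 2 ^ j : ℕ) : ℤ) ≤ ((a + 1).toNat : ℤ) := by exact_mod_cast h1
        rw [Int.toNat_of_nonneg (by omega)] at this
        push_cast at this
        exact this
      · have : ((a + 1).toNat : ℤ) ≤ ((b + i * 2 ^ j + w : ℕ) : ℤ) := by exact_mod_cast h2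
        rw [Int.toNat_of_nonneg (by omega)] at this
        push_cast at this
        exact this
    rcases lt_or_ge j m with hjm | hjm
    · refine hA2 j hjm w hw' ⟨b + 2 ^ j - 1, fun i hi => ?_⟩
      obtain ⟨a, ha, h1, h2⟩ := hZ (i + 1) (by rw [Finset.mem_Icc]; omega)
      push_cast at h1 h2
      exact ⟨a, ha, by linarith, by linarith⟩
    · obtain ⟨a₀, ha₀, h1, h2⟩ := hZ 1 (by rw [Finset.mem_Icc]; omega)
      obtain ⟨a₁, ha₁, h3, h4⟩ := hZ 2 (by rw [Finset.mem_Icc]; omega)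
      have b0 := hA1 a₀ ha₀
      have b1 := hA1 a₁ ha₁
      push_cast at h1 h2 h3 h4
      rcases lt_or_ge j N with hjN | hjN
      · have hw2 : 2 * w < 2 ^ j := by
          by_contra hcon
          push Not at hcon
          have h4' : (4 : ℕ) ^ j = 2 ^ j * 2 ^ j := by
            rw [show (4 : ℕ) = 2 * 2 by norm_num, mul_pow]
          have h5 : 2 ^ j * 2 ^ j ≤ 2 * w * 2 ^ (N - 1) :=
            Nat.mul_le_mul hcon (Nat.pow_le_pow_right (by norm_num) (by omega))
          have h6 : 2 ^ N = 2 * 2 ^ (N - 1) := by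
            rw [← pow_succ']; congr 1; omega
          have h7 : 2 * w * 2 ^ (N - 1) = w * 2 ^ N := by rw [h6]; ring
          omega
        have hw2' : 2 * (w : ℤ) < 2 ^ j := by exact_mod_cast hw2
        have hmj : 2 * ((2 ^ (m - 1) : ℕ) : ℤ) ≤ 2 ^ j := by
          have : 2 * 2 ^ (m - 1) ≤ 2 ^ j := by
            rw [← h2m]
            exact Nat.pow_le_pow_right (by norm_num) hjm
          exact_mod_cast this
        obtain ⟨W, hW⟩ : ∃ W : ℤ, W = 2 ^ j := ⟨_, rfl⟩
        rw [← hW] at h1 h2 h3 h4 hw2' hmj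
        linarith [b0.1, b0.2, b1.1, b1.2]
      · have h5 : (2 : ℤ) ^ N ≤ 2 ^ j := pow_le_pow_right₀ (by norm_num) hjN
        have h6 : (0 : ℤ) < 2 ^ N := by positivity
        have h7 : (0 : ℤ) ≤ b := by positivity
        linarith [b1.2]
  · rw [Finset.card_image_of_injOn]
    · refine le_trans ?_ hA3
      have hIlog : I ≤ Nat.log 2 N := by
        apply Nat.le_log_of_pow_le (by norm_num)
        omega
      have hρI : ρ ^ (Nat.log 2 N) ≤ ρ ^ I := pow_le_pow_of_le_one hρ0.le hρ1 hIlog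
      have hN2 : (2 : ℝ) ^ N = 2 ^ 8 * 2 ^ (m - 1) := by
        rw [← pow_add]; congr 1; omega
      push_cast
      calc ρ / 2 ^ 9 * 2 ^ N * ρ ^ (Nat.log 2 N) ≤ ρ / 2 ^ 9 * 2 ^ N * ρ ^ I :=
            mul_le_mul_of_nonneg_left hρI (by positivity)
        _ = ρ * ρ ^ I * (1 - 1 / 2 ^ (0 + 1)) * 2 ^ (m - 1) := by
            rw [hN2]
            norm_num
            ring
    · intro a ha b hb hab
      have h1 := (hA1 a ha).1
      have h2 := (hA1 b hb).1
      simp only at hab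
      omega

end Pool.Agent.Y869.NP.Gen
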