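import Mathlib

/-!
(By helper532. Moved here from `Results/MP_0426f4_nt`: the statement is contained in
`Results/MP_0426f4_nt/ExactOrder`.)

# Sets of density `(log n)^{-9/t}` which nearly contain no admissible `(t, d, w)`-progression

For every `t ≥ 3` and ALL large `n` we construct `A ⊆ [1, n]` which nearly contains no
`(t, d, w)`-progression admissible for `n` and has `|A| ≥ n (log n)^{-9/t}`.  So `g_t(n) ≥ (log n)^{-9/t}`
for all large `n`: the inequality of Q1 fails for every `t ≥ 3` and every large `n`, and the true order of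
`g_t(n)` is at least a fixed power of `log n`, with an exponent which tends to `0` as `t` grows.

Construction: `log log n` scales `M = 2^m`; at every scale a random shift of a periodic set with period
`q M` (`q` odd, `q ≤ t - 1`) from which two of the `q` residue intervals are removed.
-/

set_option autoImplicit false

namespace Pool.Agent.Results.MP_0426f4_nt.LogPowerDensity

open Finset

/-- `A` nearly contains a `(t, d, w)`-progression: for some `b` the blocks `[b + i d, b + i d + w]`,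
`1 ≤ i ≤ t - 1`, all meet `A`. -/
def NearlyContains (A : Finset ℕ) (t d w : ℕ) : Prop :=
  ∃ b : ℕ, ∀ i ∈ Icc 1 (t - 1), ∃ a ∈ A, b + i * d ≤ a ∧ a ≤ b + i * d + w

/-- `(t, d, w)` is admissible for `n`: `d` is a power of `2` and `w n < d ^ 2`. -/
def Admissible (n d w : ℕ) : Prop := (∃ j : ℕ, d = 2 ^ j) ∧ w * n < d ^ 2

/-! ### the averaging argument -/

theorem greedy (X : Finset ℕ) (r k : ℕ) (hr : 0 < r) (P : ℕ → ℕ → Prop) [∀ a z, Decidable (P a z)]
    (h : ∀ z ∈ X, k ≤ ((range r).filter fun a => P a z).card) :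
    ∃ a, k * X.card ≤ r * (X.filter (P a)).card := by
  by_contra hcon
  push Not at hcon
  have h1 : ∑ a ∈ range r, (X.filter (P a)).card = ∑ z ∈ X, ((range r).filter fun a => P a z).card := by
    simp_rw [Finset.card_filter]
    rw [Finset.sum_comm]
  have h2 : k * X.card ≤ ∑ a ∈ range r, (X.filter (P a)).card := by
    rw [h1, mul_comm, ← smul_eq_mul, ← Finset.sum_const]
    exact Finset.sum_le_sum h
  have h3 : r * ∑ a ∈ range r, (X.filter (P a)).card < r * (k * X.card) := by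
    rw [Finset.mul_sum]
    calc ∑ a ∈ range r, r * (X.filter (P a)).card < ∑ _a ∈ range r, k * X.card :=
          Finset.sum_lt_sum_of_nonempty (by rw [Finset.nonempty_range_iff]; omega) (fun a _ => hcon a)
      _ = r * (k * X.card) := by rw [Finset.sum_const, Finset.card_range, smul_eq_mul]
  have h4 := Nat.lt_of_mul_lt_mul_left h3
  omega

theorem iterate (X : Finset ℕ) (r k : ℕ) (hr : 0 < r) (P : ℕ → ℕ → ℕ → Prop)
    [∀ i a z, Decidable (P i a z)] (h : ∀ i z, k ≤ ((range r).filter fun a => P i a z).card) (K : ℕ) :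
    ∃ A ⊆ X, k ^ K * X.card ≤ r ^ K * A.card ∧ ∀ i < K, ∃ a, ∀ z ∈ A, P i a z := by
  induction K with
  | zero => exact ⟨X, subset_rfl, by simp, fun i hi => absurd hi (by omega)⟩
  | succ K ih =>
    obtain ⟨A, hAX, hA1, hA2⟩ := ih
    obtain ⟨a, ha⟩ := greedy A r k hr (P K) (fun z _ => h K z)
    refine ⟨A.filter (P K a), (filter_subset _ _).trans hAX, ?_, ?_⟩
    · calc k ^ (K + 1) * X.card = k * (k ^ K * X.card) := by ring
        _ ≤ k * (r ^ K * A.card) := Nat.mul_le_mul_left _ hA1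
        _ = r ^ K * (k * A.card) := by ring
        _ ≤ r ^ K * (r * (A.filter (P K a)).card) := Nat.mul_le_mul_left _ ha
        _ = r ^ (K + 1) * (A.filter (P K a)).card := by ring
    · intro i hi
      rcases Nat.lt_succ_iff_lt_or_eq.1 hi with h1 | h1
      · obtain ⟨a', ha'⟩ := hA2 i h1
        exact ⟨a', fun z hz => ha' z (mem_filter.1 hz).1⟩
      · subst h1
        exact ⟨a, fun z hz => (mem_filter.1 hz).2⟩

/-! ### counting shifts -/

theorem inj_shift (q c : ℕ) : Set.InjOn (fun a => (c + a) % q) (range q : Set ℕ) := by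
  intro a ha b hb hab
  rw [Finset.coe_range, Set.mem_Iio] at ha hb
  have h1 : c + a ≡ c + b [MOD q] := hab
  have h2 : a ≡ b [MOD q] := Nat.ModEq.add_left_cancel' c h1
  exact Nat.ModEq.eq_of_lt_of_lt h2 ha hb

theorem count_two (q c : ℕ) : q - 2 ≤ ((range q).filter fun a => 2 ≤ (c + a) % q).card := by
  have h1 : ((range q).filter fun a => ¬ 2 ≤ (c + a) % q).card ≤ 2 := by
    have h2 : (((range q).filter fun a => ¬ 2 ≤ (c + a) % q).image (fun a => (c + a) % q)) ⊆ range 2 := by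
      intro x hx
      rw [mem_image] at hx
      obtain ⟨a, ha, rfl⟩ := hx
      rw [mem_filter] at ha
      rw [mem_range]
      omega
    have h3 := Finset.card_le_card h2
    rw [Finset.card_image_of_injOn, card_range] at h3
    · exact h3
    · exact (inj_shift q c).mono (by
        intro x hx
        exact (mem_filter.1 hx).1)
  have h4 := Finset.card_filter_add_card_filter_not (s := range q) (p := fun a => 2 ≤ (c + a) % q)
  rw [card_range] at h4
  omega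

theorem count_zero (q c : ℕ) (hq : 0 < q) : 1 ≤ ((range q).filter fun a => (c + a) % q = 0).card := by
  rw [Finset.one_le_card]
  refine ⟨(q - c % q) % q, ?_⟩
  rw [mem_filter, mem_range]
  refine ⟨Nat.mod_lt _ hq, ?_⟩
  have h1 : c % q < q := Nat.mod_lt _ hq
  rw [Nat.add_mod, Nat.mod_mod, Nat.add_mod_mod]
  have h2 : c % q + (q - c % q) = q := by omega
  rw [h2, Nat.mod_self]

/-! ### the case `t ≥ 4` -/

/-- the scales -/
def ms (N : ℕ) : ℕ → ℕ
  | 0 => 0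
  | i + 1 => (N + ms N i) / 2 + 1

theorem ms_large (N : ℕ) (i : ℕ) : ((N : ℤ) - ms N i + 1) * 2 ^ i ≤ N + 1 := by
  induction i with
  | zero => simp [ms]
  | succ i ih =>
    have h1 : 2 * ((N : ℤ) - ms N (i + 1) + 1) ≤ N - ms N i + 1 := by
      rw [ms]
      push_cast
      omega
    calc ((N : ℤ) - ms N (i + 1) + 1) * 2 ^ (i + 1) = (2 * ((N : ℤ) - ms N (i + 1) + 1)) * 2 ^ i := by ring
      _ ≤ (N - ms N i + 1) * 2 ^ i := mul_le_mul_of_nonneg_right h1 (by positivity)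
      _ ≤ N + 1 := ih

theorem ms_gt {N K : ℕ} (hK : N + 1 < 2 ^ K) : N < ms N K := by
  by_contra hcon
  push Not at hcon
  have h1 := ms_large N K
  have h2 : (1 : ℤ) ≤ (N : ℤ) - ms N K + 1 := by omega
  have h3 : (1 : ℤ) * 2 ^ K ≤ ((N : ℤ) - ms N K + 1) * 2 ^ K := mul_le_mul_of_nonneg_right h2 (by positivity)
  have h4 : ((N : ℤ) + 1) < 2 ^ K := by exact_mod_cast hK
  linarith

theorem ms_find {N j : ℕ} : ∀ K : ℕ, j < ms N K → ∃ i < K, ms N i ≤ j ∧ j < ms N (i + 1) := by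
  intro K
  induction K with
  | zero => intro h; simp [ms] at h
  | succ K ih =>
    intro h
    by_cases h1 : j < ms N K
    · obtain ⟨i, hi, h2⟩ := ih h1
      exact ⟨i, by omega, h2⟩
    · exact ⟨K, by omega, by omega, h⟩

theorem small_width {n N m j w : ℕ} (hn : 2 ^ N ≤ n) (hj : 2 * j ≤ N + m)
    (hw : w * n < (2 ^ j) ^ 2) : w < 2 ^ m := by
  by_contra hcon
  push Not at hcon
  have h1 : (2 ^ j) ^ 2 ≤ 2 ^ (N + m) := by
    rw [← pow_mul]
    exact Nat.pow_le_pow_right (by norm_num) (by omega)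
  have h2 : 2 ^ (N + m) ≤ w * n := by
    rw [pow_add, mul_comm]
    exact Nat.mul_le_mul hcon hn
  omega

theorem solve_cong {q D : ℕ} (hq : 1 < q) (hD : Nat.Coprime D q) (B : ℕ) :
    ∃ l, 1 ≤ l ∧ l ≤ q ∧ (B + l * D) % q = 0 := by
  obtain ⟨e, he⟩ := Nat.exists_mul_mod_eq_one_of_coprime hD hq
  obtain ⟨x, hx⟩ : ∃ x : ℕ, x = (B * (q - 1) * e) % q := ⟨_, rfl⟩
  have hxq : x < q := by rw [hx]; exact Nat.mod_lt _ (by omega)
  have hx0 : (B + x * D) % q = 0 := by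
    have h1 : x ≡ B * (q - 1) * e [MOD q] := by rw [hx]; exact Nat.mod_modEq _ _
    have h2 : D * e ≡ 1 [MOD q] := by
      have : D * e % q = 1 % q := by rw [he.2, Nat.mod_eq_of_lt hq]
      exact this
    have h3 : B + x * D ≡ B + (B * (q - 1)) * 1 [MOD q] := by
      refine Nat.ModEq.add_left _ ?_
      calc x * D ≡ (B * (q - 1) * e) * D [MOD q] := h1.mul_right _
        _ = (B * (q - 1)) * (D * e) := by ring
        _ ≡ (B * (q - 1)) * 1 [MOD q] := h2.mul_left _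
    have h4 : B + (B * (q - 1)) * 1 = B * q := by
      obtain ⟨q', rfl⟩ : ∃ q', q = q' + 1 := ⟨q - 1, by omega⟩
      simp
      ring
    rw [h4] at h3
    have h5 : (B + x * D) % q = (B * q) % q := h3
    rw [h5, Nat.mul_mod_left]
  rcases Nat.eq_zero_or_pos x with h | h
  · subst h
    refine ⟨q, by omega, le_rfl, ?_⟩
    rw [zero_mul, add_zero] at hx0
    rw [Nat.add_mul_mod_self_left]
    exact hx0
  · exact ⟨x, h, hxq.le, hx0⟩

theorem avoid {A : Finset ℕ} {q t m j w a : ℕ} (hq : 3 ≤ q) (hqo : Odd q) (hqt : q ≤ t - 1) (hmj : m ≤ j)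
    (hw : w < 2 ^ m) (hA : ∀ z ∈ A, 2 ≤ (z / 2 ^ m + a) % q) : ¬ NearlyContains A t (2 ^ j) w := by
  rintro ⟨b, hb⟩
  have hM : 0 < 2 ^ m := by positivity
  have hD : Nat.Coprime (2 ^ (j - m)) q := Nat.Coprime.pow_left _ (Nat.coprime_two_left.2 hqo)
  obtain ⟨l, hl1, hlq, hl⟩ := solve_cong (by omega) hD (b / 2 ^ m + a)
  obtain ⟨z, hz, h1, h2⟩ := hb l (mem_Icc.2 ⟨hl1, hlq.trans hqt⟩)
  have hj : 2 ^ j = 2 ^ m * 2 ^ (j - m) := by
    rw [← pow_add]; congr 1; omega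
  have hbdiv : b = 2 ^ m * (b / 2 ^ m) + b % 2 ^ m := (Nat.div_add_mod b (2 ^ m)).symm
  have hbmod : b % 2 ^ m < 2 ^ m := Nat.mod_lt _ hM
  obtain ⟨M, hMd⟩ : ∃ M : ℕ, M = 2 ^ m := ⟨_, rfl⟩
  obtain ⟨D, hDd⟩ : ∃ D : ℕ, D = 2 ^ (j - m) := ⟨_, rfl⟩
  obtain ⟨B, hBd⟩ : ∃ B : ℕ, B = b / 2 ^ m := ⟨_, rfl⟩
  obtain ⟨ρ, hρd⟩ : ∃ ρ : ℕ, ρ = b % 2 ^ m := ⟨_, rfl⟩
  rw [← hρd] at hbmod
  rw [← hBd, ← hρd] at hbdiv
  rw [← hBd, ← hDd] at hl
  rw [hj, ← hMd, ← hDd] at h1 h2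
  rw [← hMd] at hbdiv hbmod hw hM
  have e1 : b + l * (M * D) = M * (B + l * D) + ρ := by rw [hbdiv]; ring
  rw [e1] at h1 h2
  have hlow : B + l * D ≤ z / M := by
    rw [Nat.le_div_iff_mul_le hM]
    calc (B + l * D) * M = M * (B + l * D) := by ring
      _ ≤ z := by omega
  have hup : z / M < B + l * D + 2 := by
    rw [Nat.div_lt_iff_lt_mul hM]
    calc z ≤ M * (B + l * D) + ρ + w := h2
      _ < M * (B + l * D) + 2 * M := by omega
      _ = (B + l * D + 2) * M := by ring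
  have hA' := hA z hz
  rw [← hMd] at hA'
  have hcase : z / M = B + l * D ∨ z / M = B + l * D + 1 := by omega
  have e2 : B + a + l * D = B + l * D + a := by ring
  rw [e2] at hl
  rcases hcase with h | h
  · rw [h, hl] at hA'
    omega
  · have e3 : B + l * D + 1 + a = (B + l * D + a) + 1 := by ring
    rw [h, e3, Nat.add_mod, hl, zero_add, Nat.mod_mod, Nat.mod_eq_of_lt (by omega : 1 < q)] at hA'
    omega

theorem four {t q n : ℕ} (hq : 3 ≤ q) (hqo : Odd q) (hqt : q ≤ t - 1) (hn : 1 ≤ n) :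
    ∃ A ⊆ Icc 1 n, (∀ d w : ℕ, Admissible n d w → ¬ NearlyContains A t d w) ∧
      (q - 2) ^ (Nat.log 2 (Nat.log 2 n + 1) + 1) * n ≤
        q ^ (Nat.log 2 (Nat.log 2 n + 1) + 1) * A.card := by
  obtain ⟨N, hN⟩ : ∃ N : ℕ, N = Nat.log 2 n := ⟨_, rfl⟩
  obtain ⟨K, hK⟩ : ∃ K : ℕ, K = Nat.log 2 (Nat.log 2 n + 1) + 1 := ⟨_, rfl⟩
  rw [← hK]
  have hn1 : 2 ^ N ≤ n := by rw [hN]; exact Nat.pow_log_le_self 2 (by omega)
  have hn2 : n < 2 ^ (N + 1) := by rw [hN]; exact Nat.lt_pow_succ_log_self (by norm_num) n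
  have hKN : N + 1 < 2 ^ K := by rw [hK, hN]; exact Nat.lt_pow_succ_log_self (by norm_num) _
  obtain ⟨A, hAX, hAc, hA⟩ := iterate (Icc 1 n) q (q - 2) (by omega)
    (fun i a z => 2 ≤ (z / 2 ^ ms N i + a) % q) (fun i z => count_two q (z / 2 ^ ms N i)) K
  rw [Nat.card_Icc, Nat.add_sub_cancel] at hAc
  refine ⟨A, hAX, ?_, hAc⟩
  rintro d w ⟨⟨j, rfl⟩, hw⟩
  by_cases hj : j < ms N K
  · obtain ⟨i, hi, h1, h2⟩ := ms_find K hj
    obtain ⟨a, ha⟩ := hA i hi
    rw [ms] at h2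
    exact avoid hq hqo hqt h1 (small_width hn1 (by omega) hw) ha
  · rintro ⟨b, hb⟩
    have hNj : N + 1 ≤ j := by
      have := ms_gt hKN
      omega
    obtain ⟨z, hz, h1, -⟩ := hb 1 (mem_Icc.2 ⟨le_rfl, by omega⟩)
    have hz2 := (mem_Icc.1 (hAX hz)).2
    have h3 : 2 ^ (N + 1) ≤ 2 ^ j := Nat.pow_le_pow_right (by norm_num) hNj
    omega

/-! ### the case `t = 3` -/

/-- the scales -/
def hs (N : ℕ) : ℕ → ℕ
  | 0 => 0
  | i + 1 => (N + hs N i) / 2

theorem hs_large (N : ℕ) (i : ℕ) : ((N : ℤ) - hs N i - 1) * 2 ^ i ≤ N - 1 := by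
  induction i with
  | zero => simp [hs]
  | succ i ih =>
    have h1 : 2 * ((N : ℤ) - hs N (i + 1) - 1) ≤ N - hs N i - 1 := by
      rw [hs]
      push_cast
      omega
    calc ((N : ℤ) - hs N (i + 1) - 1) * 2 ^ (i + 1) = (2 * ((N : ℤ) - hs N (i + 1) - 1)) * 2 ^ i := by ring
      _ ≤ (N - hs N i - 1) * 2 ^ i := mul_le_mul_of_nonneg_right h1 (by positivity)
      _ ≤ N - 1 := ih

theorem hs_ge {N K : ℕ} (hK : N + 1 < 2 ^ K) : N ≤ hs N K + 1 := by
  by_contra hcon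
  push Not at hcon
  have h1 := hs_large N K
  have h2 : (1 : ℤ) ≤ (N : ℤ) - hs N K - 1 := by omega
  have h3 : (1 : ℤ) * 2 ^ K ≤ ((N : ℤ) - hs N K - 1) * 2 ^ K := mul_le_mul_of_nonneg_right h2 (by positivity)
  have h4 : ((N : ℤ) + 1) < 2 ^ K := by exact_mod_cast hK
  linarith

theorem hs_find {N j : ℕ} : ∀ K : ℕ, j < hs N K → ∃ i < K, hs N i ≤ j ∧ j < hs N (i + 1) := by
  intro K
  induction K with
  | zero => intro h; simp [hs] at h
  | succ K ih =>
    intro h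
    by_cases h1 : j < hs N K
    · obtain ⟨i, hi, h2⟩ := ih h1
      exact ⟨i, by omega, h2⟩
    · exact ⟨K, by omega, by omega, h⟩

theorem avoid3 {A : Finset ℕ} {m j w a : ℕ} (hmj : m + 1 ≤ j)
    (hw : w < 2 ^ m) (hA : ∀ z ∈ A, (z / 2 ^ m + a) % 6 = 0) : ¬ NearlyContains A 3 (2 ^ j) w := by
  rintro ⟨b, hb⟩
  obtain ⟨x, hx, h1, h2⟩ := hb 1 (by simp)
  obtain ⟨y, hy, h3, h4⟩ := hb 2 (by simp)
  have hM : 0 < 2 ^ m := by positivity
  have hAx := hA x hx
  have hAy := hA y hy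
  have hj : 2 ^ j = 2 ^ m * (2 * 2 ^ (j - 1 - m)) := by
    rw [← pow_succ', ← pow_add]; congr 1; omega
  have h3D : ¬ 3 ∣ 2 ^ (j - 1 - m) := by
    intro h
    have := Nat.prime_three.dvd_of_dvd_pow h
    omega
  obtain ⟨D, hDd⟩ : ∃ D : ℕ, D = 2 ^ (j - 1 - m) := ⟨_, rfl⟩
  obtain ⟨M, hMd⟩ : ∃ M : ℕ, M = 2 ^ m := ⟨_, rfl⟩
  rw [← hDd] at hj h3D
  rw [← hMd] at hj hw hM hAx hAy
  rw [hj] at h1 h2 h3 h4
  have hx1 : x = M * (x / M) + x % M := (Nat.div_add_mod x M).symm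
  have hx2 : x % M < M := Nat.mod_lt _ hM
  have hy1 : y = M * (y / M) + y % M := (Nat.div_add_mod y M).symm
  have hy2 : y % M < M := Nat.mod_lt _ hM
  obtain ⟨u, hu⟩ : ∃ u : ℤ, (y / M : ℕ) - (x / M : ℕ) = 6 * u := by
    refine ⟨((y / M : ℕ) - (x / M : ℕ)) / 6, ?_⟩
    omega
  -- integers
  have k1 : (y : ℤ) - x ≤ M * (2 * D) + w := by
    have e1 : b + 1 * (M * (2 * D)) ≤ x := h1
    have e2 : y ≤ b + 2 * (M * (2 * D)) + w := h4
    have e3 : (b : ℤ) + 1 * (M * (2 * D)) ≤ x := by exact_mod_cast e1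
    have e4 : (y : ℤ) ≤ b + 2 * (M * (2 * D)) + w := by exact_mod_cast e2
    linarith
  have k2 : (M : ℤ) * (2 * D) - w ≤ y - x := by
    have e1 : x ≤ b + 1 * (M * (2 * D)) + w := h2
    have e2 : b + 2 * (M * (2 * D)) ≤ y := h3
    have e3 : (x : ℤ) ≤ b + 1 * (M * (2 * D)) + w := by exact_mod_cast e1
    have e4 : (b : ℤ) + 2 * (M * (2 * D)) ≤ y := by exact_mod_cast e2
    linarith
  obtain ⟨X, hX⟩ : ∃ X : ℕ, X = x / M := ⟨_, rfl⟩
  obtain ⟨Y, hY⟩ : ∃ Y : ℕ, Y = y / M := ⟨_, rfl⟩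
  obtain ⟨rx, hrx⟩ : ∃ rx : ℕ, rx = x % M := ⟨_, rfl⟩
  obtain ⟨ry, hry⟩ : ∃ ry : ℕ, ry = y % M := ⟨_, rfl⟩
  rw [← hX, ← hrx] at hx1
  rw [← hY, ← hry] at hy1
  rw [← hrx] at hx2
  rw [← hry] at hy2
  rw [← hX, ← hY] at hu
  have hMz : (0 : ℤ) < M := by exact_mod_cast hM
  have k3 : (y : ℤ) - x = M * (6 * u) + (ry - rx) := by
    rw [hx1, hy1]
    push_cast
    rw [← hu]
    ring
  have k4 : (ry : ℤ) < M := by exact_mod_cast hy2
  have k5 : (rx : ℤ) < M := by exact_mod_cast hx2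
  have k6 : (w : ℤ) < M := by exact_mod_cast hw
  have k7 : (0 : ℤ) ≤ rx := by positivity
  have k8 : (0 : ℤ) ≤ ry := by positivity
  have k9 : (M : ℤ) * (6 * u - 2 * D) < M * 2 := by
    have e : (M : ℤ) * (6 * u - 2 * D) = M * (6 * u) - M * (2 * D) := by ring
    rw [e]; linarith
  have k10 : (M : ℤ) * (-2) < M * (6 * u - 2 * D) := by
    have e : (M : ℤ) * (6 * u - 2 * D) = M * (6 * u) - M * (2 * D) := by ring
    rw [e]; linarith
  have k11 := lt_of_mul_lt_mul_left k9 hMz.le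
  have k12 := lt_of_mul_lt_mul_left k10 hMz.le
  apply h3D
  have k13 : (D : ℤ) = 3 * u := by omega
  have k14 : (3 : ℤ) ∣ D := ⟨u, k13⟩
  exact_mod_cast k14

theorem three {n : ℕ} (hn : 1 ≤ n) :
    ∃ A ⊆ Icc 1 n, (∀ d w : ℕ, Admissible n d w → ¬ NearlyContains A 3 d w) ∧
      n ≤ 3 * 6 ^ (Nat.log 2 (Nat.log 2 n + 1) + 1) * A.card := by
  obtain ⟨N, hN⟩ : ∃ N : ℕ, N = Nat.log 2 n := ⟨_, rfl⟩
  obtain ⟨K, hK⟩ : ∃ K : ℕ, K = Nat.log 2 (Nat.log 2 n + 1) + 1 := ⟨_, rfl⟩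
  rw [← hK]
  have hn1 : 2 ^ N ≤ n := by rw [hN]; exact Nat.pow_log_le_self 2 (by omega)
  have hn2 : n < 2 ^ (N + 1) := by rw [hN]; exact Nat.lt_pow_succ_log_self (by norm_num) n
  have hKN : N + 1 < 2 ^ K := by rw [hK, hN]; exact Nat.lt_pow_succ_log_self (by norm_num) _
  obtain ⟨A₁, hAX, hAc, hA⟩ := iterate (Icc 1 n) 6 1 (by omega)
    (fun i a z => (z / 2 ^ hs N i + a) % 6 = 0) (fun i z => count_zero 6 (z / 2 ^ hs N i) (by norm_num)) K
  rw [Nat.card_Icc, Nat.add_sub_cancel, one_pow, one_mul] at hAc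
  obtain ⟨a₀, ha₀⟩ := greedy A₁ 3 1 (by norm_num) (fun a z => (z + a) % 3 = 0)
    (fun z _ => count_zero 3 z (by norm_num))
  rw [one_mul] at ha₀
  refine ⟨A₁.filter (fun z => (z + a₀) % 3 = 0), (filter_subset _ _).trans hAX, ?_, ?_⟩
  · rintro d w ⟨⟨j, rfl⟩, hw⟩
    rcases Nat.eq_zero_or_pos j with hj0 | hj0
    · subst hj0
      rintro ⟨b, hb⟩
      have hw0 : w = 0 := by
        rcases Nat.eq_zero_or_pos w with h | h
        · exact h
        · exfalso
          have : 1 * 1 ≤ w * n := Nat.mul_le_mul h hn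
          simp at hw
          omega
      subst hw0
      obtain ⟨x, hx, h1, h2⟩ := hb 1 (by simp)
      obtain ⟨y, hy, h3, h4⟩ := hb 2 (by simp)
      have e1 := (mem_filter.1 hx).2
      have e2 := (mem_filter.1 hy).2
      simp only [pow_zero, mul_one, add_zero] at h1 h2 h3 h4
      omega
    · by_cases hj : j - 1 < hs N K
      · obtain ⟨i, hi, h1, h2⟩ := hs_find K hj
        obtain ⟨a, ha⟩ := hA i hi
        rw [hs] at h2
        exact avoid3 (by omega) (small_width hn1 (by omega) hw) (fun z hz => ha z (mem_filter.1 hz).1)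
      · rintro ⟨b, hb⟩
        have hNj : N ≤ j := by
          have := hs_ge hKN
          omega
        obtain ⟨z, hz, h1, -⟩ := hb 2 (by simp)
        have hz2 := (mem_Icc.1 (hAX (mem_filter.1 hz).1)).2
        have h3 : 2 ^ N ≤ 2 ^ j := Nat.pow_le_pow_right (by norm_num) hNj
        rw [pow_succ] at hn2
        omega
  · calc n ≤ 6 ^ K * A₁.card := hAc
      _ ≤ 6 ^ K * (3 * (A₁.filter (fun z => (z + a₀) % 3 = 0)).card) := Nat.mul_le_mul_left _ ha₀
      _ = _ := by ring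

/-! ### the numerical part -/

theorem numeric {c C e : ℝ} (hc : 1 < c) (hC : 0 < C) (he : Real.log c / Real.log 2 < e) :
    ∀ᶠ n : ℕ in Filter.atTop, C * c ^ (Nat.log 2 (Nat.log 2 n + 1) + 1) ≤ Real.log n ^ e := by
  have hl2 : 0 < Real.log 2 := Real.log_pos (by norm_num)
  have hl2' : (0.6931471803 : ℝ) < Real.log 2 := Real.log_two_gt_d9
  obtain ⟨θ, hθ⟩ : ∃ θ : ℝ, θ = Real.log c / Real.log 2 := ⟨_, rfl⟩
  rw [← hθ] at he
  have hθ0 : 0 < θ := by rw [hθ]; exact div_pos (Real.log_pos hc) hl2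
  have hc2 : c = 2 ^ θ := by
    rw [hθ, Real.rpow_def_of_pos (by norm_num)]
    rw [mul_div_cancel₀ _ hl2.ne', Real.exp_log (by linarith)]
  have hlog : Filter.Tendsto (fun n : ℕ => Real.log n) Filter.atTop Filter.atTop :=
    Real.tendsto_log_atTop.comp tendsto_natCast_atTop_atTop
  have h1 : ∀ᶠ n : ℕ in Filter.atTop, (1 : ℝ) ≤ Real.log n := hlog.eventually_ge_atTop 1
  have h2 : ∀ᶠ n : ℕ in Filter.atTop, C * c * 3 ^ θ ≤ Real.log n ^ (e - θ) :=
    ((tendsto_rpow_atTop (by linarith)).comp hlog).eventually_ge_atTop _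
  filter_upwards [h1, h2, Filter.eventually_ge_atTop 1] with n hn1 hn2 hn
  have hn0 : (0 : ℝ) < n := by exact_mod_cast hn
  have hlog0 : 0 < Real.log n := by linarith
  have hN : ((Nat.log 2 n + 1 : ℕ) : ℝ) ≤ 3 * Real.log n := by
    have h3 : (2 : ℝ) ^ (Nat.log 2 n) ≤ n := by exact_mod_cast Nat.pow_log_le_self 2 (by omega)
    have h4 : (Nat.log 2 n : ℝ) * Real.log 2 ≤ Real.log n := by
      have := Real.log_le_log (by positivity) h3
      rwa [Real.log_pow] at this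
    push_cast
    nlinarith
  have hN0 : (0 : ℝ) < ((Nat.log 2 n + 1 : ℕ) : ℝ) := by positivity
  have hpow : c ^ (Nat.log 2 (Nat.log 2 n + 1)) ≤ (3 * Real.log n) ^ θ := by
    have h3 : (2 : ℝ) ^ (Nat.log 2 (Nat.log 2 n + 1)) ≤ ((Nat.log 2 n + 1 : ℕ) : ℝ) := by
      exact_mod_cast Nat.pow_log_le_self 2 (by omega)
    calc c ^ (Nat.log 2 (Nat.log 2 n + 1)) = ((2 : ℝ) ^ (Nat.log 2 (Nat.log 2 n + 1))) ^ θ := by
          rw [hc2, ← Real.rpow_natCast, ← Real.rpow_mul (by norm_num), ← Real.rpow_natCast,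
            ← Real.rpow_mul (by norm_num), mul_comm]
      _ ≤ (((Nat.log 2 n + 1 : ℕ) : ℝ)) ^ θ := Real.rpow_le_rpow (by positivity) h3 hθ0.le
      _ ≤ (3 * Real.log n) ^ θ := Real.rpow_le_rpow hN0.le hN hθ0.le
  calc C * c ^ (Nat.log 2 (Nat.log 2 n + 1) + 1) = C * c * c ^ (Nat.log 2 (Nat.log 2 n + 1)) := by
        rw [pow_succ]; ring
    _ ≤ C * c * (3 * Real.log n) ^ θ := by gcongr
    _ = (C * c * 3 ^ θ) * Real.log n ^ θ := by
        rw [Real.mul_rpow (by norm_num) hlog0.le]; ring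
    _ ≤ Real.log n ^ (e - θ) * Real.log n ^ θ := by gcongr
    _ = Real.log n ^ e := by
        rw [← Real.rpow_add hlog0]; congr 1; ring

/-- the exponent for `q` and `t ≤ q + 2` -/
theorem exponent {q t : ℕ} (hq : 3 ≤ q) (ht : 3 ≤ t) (htq : t ≤ q + 2) :
    Real.log ((q : ℝ) / ((q : ℝ) - 2)) / Real.log 2 < 9 / t := by
  have hl2 : 0 < Real.log 2 := Real.log_pos (by norm_num)
  have hl2' : (0.6931471803 : ℝ) < Real.log 2 := Real.log_two_gt_d9
  have ht0 : (0 : ℝ) < t := by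
    have : (3 : ℝ) ≤ t := by exact_mod_cast ht
    linarith
  have hqr : (3 : ℝ) ≤ q := by exact_mod_cast hq
  have htqr : (t : ℝ) ≤ q + 2 := by exact_mod_cast htq
  rw [div_lt_div_iff₀ hl2 ht0]
  rcases Nat.lt_or_ge q 4 with h | h
  · have hq3 : q = 3 := by omega
    subst hq3
    have e : ((3 : ℕ) : ℝ) / (((3 : ℕ) : ℝ) - 2) = 3 := by norm_num
    rw [e]
    have h3 : Real.log 3 < 1.2 := by
      rw [Real.log_lt_iff_lt_exp (by norm_num)]
      have h1 : (1 : ℝ) + 1.2 + 1.2 ^ 2 / 2 + 1.2 ^ 3 / 6 + 1.2 ^ 4 / 24 ≤ Real.exp 1.2 := by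
        have := Real.sum_le_exp_of_nonneg (x := 1.2) (by norm_num) 5
        simp [Finset.sum_range_succ, Nat.factorial] at this
        linarith
      have h2 : (3 : ℝ) < 1 + 1.2 + 1.2 ^ 2 / 2 + 1.2 ^ 3 / 6 + 1.2 ^ 4 / 24 := by norm_num
      linarith
    have ht5 : (t : ℝ) ≤ 5 := by
      have := htqr
      push_cast at this
      linarith
    have hlog3 : 0 < Real.log 3 := Real.log_pos (by norm_num)
    nlinarith
  · have hq4 : (4 : ℝ) ≤ q := by exact_mod_cast h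
    have hq2 : (0 : ℝ) < q - 2 := by linarith
    have h1 : Real.log ((q : ℝ) / ((q : ℝ) - 2)) ≤ 2 / (q - 2) := by
      have h2 := Real.log_le_sub_one_of_pos (x := (q : ℝ) / ((q : ℝ) - 2)) (by positivity)
      have h3 : (q : ℝ) / ((q : ℝ) - 2) - 1 = 2 / (q - 2) := by
        field_simp
        ring
      linarith
    have h4 : 2 / ((q : ℝ) - 2) * t < 9 * Real.log 2 := by
      have h5 : 2 / ((q : ℝ) - 2) * t ≤ 2 / ((q : ℝ) - 2) * (q + 2) := by gcongr
      have h6 : 2 / ((q : ℝ) - 2) * (q + 2) ≤ 6 := by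
        rw [div_mul_eq_mul_div, div_le_iff₀ hq2]
        linarith
      linarith
    calc Real.log ((q : ℝ) / ((q : ℝ) - 2)) * t ≤ 2 / (q - 2) * t := by gcongr
      _ < 9 * Real.log 2 := h4

/-- **Main result**: `g_t(n) ≥ (log n)^{-9/t}` for every `t ≥ 3` and all large `n`. -/
theorem result : ∀ t : ℕ, 3 ≤ t → ∃ n₀ : ℕ, ∀ n : ℕ, n₀ ≤ n → ∃ A ⊆ Icc 1 n,
    (∀ d w : ℕ, Admissible n d w → ¬ NearlyContains A t d w) ∧
    Real.log n ^ (-(9 / (t : ℝ))) ≤ (A.card : ℝ) / n := by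
  intro t ht
  rcases Nat.lt_or_ge t 4 with h4 | h4
  · have ht3 : t = 3 := by omega
    subst ht3
    have hnum := numeric (c := 6) (C := 3) (e := 9 / ((3 : ℕ) : ℝ)) (by norm_num) (by norm_num) (by
      have hl2' : (0.6931471803 : ℝ) < Real.log 2 := Real.log_two_gt_d9
      have hl2 : 0 < Real.log 2 := Real.log_pos (by norm_num)
      rw [div_lt_div_iff₀ hl2 (by norm_num)]
      have h8 : Real.log 6 < Real.log 8 := Real.log_lt_log (by norm_num) (by norm_num)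
      have h8' : Real.log 8 = 3 * Real.log 2 := by
        rw [show (8 : ℝ) = 2 ^ 3 by norm_num, Real.log_pow]; norm_num
      push_cast
      linarith)
    obtain ⟨n₀, hn₀⟩ := Filter.eventually_atTop.1 hnum
    refine ⟨max n₀ 3, fun n hn => ?_⟩
    have hn1 : 1 ≤ n := by
      have := (le_max_right n₀ 3).trans hn
      omega
    have hnr : (0 : ℝ) < n := by exact_mod_cast hn1
    obtain ⟨A, hA1, hA2, hA3⟩ := three hn1
    refine ⟨A, hA1, hA2, ?_⟩
    have h1 := hn₀ n ((le_max_left _ _).trans hn)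
    have hlog : 0 < Real.log n := Real.log_pos (by
      have : 3 ≤ n := (le_max_right n₀ 3).trans hn
      have : (3 : ℝ) ≤ n := by exact_mod_cast this
      linarith)
    have h2 : (n : ℝ) ≤ (3 * 6 ^ (Nat.log 2 (Nat.log 2 n + 1) + 1)) * A.card := by exact_mod_cast hA3
    rw [le_div_iff₀ hnr, Real.rpow_neg hlog.le, inv_mul_le_iff₀ (Real.rpow_pos_of_pos hlog _)]
    exact h2.trans (by gcongr)
  · obtain ⟨q, hq3, hqo, hqt, htq⟩ : ∃ q : ℕ, 3 ≤ q ∧ Odd q ∧ q ≤ t - 1 ∧ t ≤ q + 2 := by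
      rcases Nat.even_or_odd (t - 1) with h | h
      · refine ⟨t - 2, ?_, ?_, by omega, by omega⟩
        · obtain ⟨k, hk⟩ := h
          omega
        · obtain ⟨k, hk⟩ := h
          exact ⟨k - 1, by omega⟩
      · exact ⟨t - 1, by omega, h, le_rfl, by omega⟩
    have hqr : (3 : ℝ) ≤ q := by exact_mod_cast hq3
    have hq2 : (0 : ℝ) < (q : ℝ) - 2 := by linarith
    have hnum := numeric (c := (q : ℝ) / ((q : ℝ) - 2)) (C := 1) (e := 9 / (t : ℝ))
      (by rw [one_lt_div hq2]; linarith) one_pos (exponent hq3 ht htq)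
    obtain ⟨n₀, hn₀⟩ := Filter.eventually_atTop.1 hnum
    refine ⟨max n₀ 3, fun n hn => ?_⟩
    have hn1 : 1 ≤ n := by
      have := (le_max_right n₀ 3).trans hn
      omega
    have hnr : (0 : ℝ) < n := by exact_mod_cast hn1
    obtain ⟨A, hA1, hA2, hA3⟩ := four hq3 hqo hqt hn1
    refine ⟨A, hA1, hA2, ?_⟩
    have h1 := hn₀ n ((le_max_left _ _).trans hn)
    have hlog : 0 < Real.log n := Real.log_pos (by
      have : 3 ≤ n := (le_max_right n₀ 3).trans hn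
      have : (3 : ℝ) ≤ n := by exact_mod_cast this
      linarith)
    obtain ⟨K, hK⟩ : ∃ K : ℕ, K = Nat.log 2 (Nat.log 2 n + 1) + 1 := ⟨_, rfl⟩
    rw [← hK] at hA3 h1
    have hcast : ((q - 2 : ℕ) : ℝ) = (q : ℝ) - 2 := by
      rw [Nat.cast_sub (by omega)]; norm_num
    have h2 : ((q : ℝ) - 2) ^ K * n ≤ (q : ℝ) ^ K * A.card := by
      rw [← hcast]
      exact_mod_cast hA3
    have h3 : (n : ℝ) ≤ ((q : ℝ) / ((q : ℝ) - 2)) ^ K * A.card := by
      rw [div_pow, div_mul_eq_mul_div, le_div_iff₀ (pow_pos hq2 K)]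
      linarith
    rw [le_div_iff₀ hnr, Real.rpow_neg hlog.le, inv_mul_le_iff₀ (Real.rpow_pos_of_pos hlog _)]
    refine h3.trans ?_
    rw [one_mul] at h1
    gcongr

end Pool.Agent.Results.MP_0426f4_nt.LogPowerDensity
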